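import Pool.Agent.T2h36.Uni5
import Pool.Agent.T2h36.Dens

/-!
# Statements: sum-of-squares proofs of bounded order for Turán's (4,3) problem on `n` vertices
-/

set_option autoImplicit false
open Finset
open Pool.Agent.T2h36 Pool.Agent.T2h36.Uni

namespace Pool.Agent.T3h36

/-- the embedding which permutes the further vertices and fixes the roots -/
def freePerm (k : ℕ) {m : ℕ} (σ : Equiv.Perm (Fin m)) : Fin k ⊕ Fin m ↪ Fin k ⊕ Fin m :=
  Function.Embedding.sumMap (Function.Embedding.refl _) σ.toEmbedding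

/-- `f` does not depend on the order of the further vertices -/
def IsSym {k m : ℕ} (f : Finset (Finset (Fin k ⊕ Fin m)) → ℝ) : Prop :=
  ∀ (σ : Equiv.Perm (Fin m)) (F : Finset (Finset (Fin k ⊕ Fin m))), f (pull (freePerm k σ) F) = f F

/-- the sum of `f` over all flags in `H` with the roots `η` -/
noncomputable def ext {k m : ℕ} {V : Type} [Fintype V] [DecidableEq V]
    (f : Finset (Finset (Fin k ⊕ Fin m)) → ℝ) (H : Finset (Finset V)) (η : Fin k ↪ V) : ℝ :=
  ∑ χ : Fin k ⊕ Fin m ↪ V, if ∀ i, χ (Sum.inl i) = η i then f (pull χ H) else 0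

/-- the sum of the squares of `ext f H η` over all roots `η` -/
noncomputable def finSq {k m : ℕ} {V : Type} [Fintype V] [DecidableEq V]
    (f : Finset (Finset (Fin k ⊕ Fin m)) → ℝ) (H : Finset (Finset V)) : ℝ :=
  ∑ η : Fin k ↪ V, ext f H η ^ 2

/-- the image of a 3-graph -/
def push {A V : Type} (ι : A ↪ V) (G : Finset (Finset A)) : Finset (Finset V) :=
  G.map (Finset.mapEmbedding ι).toEmbedding

/-- (SYM) symmetrisation of a combination of flags. Take
`fs F = (1/m!) ∑ σ, f (pull (freePerm k σ) F)`. For `ext`: for fixed `σ` the map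
`χ ↦ (freePerm k σ).trans χ` is a bijection of the `χ` with roots `η`, and
`pull (freePerm k σ) (pull χ H) = pull ((freePerm k σ).trans χ) H` (`pull_pull`). -/
def S_SYM : Prop := ∀ (k m : ℕ) (f : Finset (Finset (Fin k ⊕ Fin m)) → ℝ),
  ∃ fs : Finset (Finset (Fin k ⊕ Fin m)) → ℝ, IsSym fs ∧
    ∀ (V : Type) [Fintype V] [DecidableEq V] (H : Finset (Finset V)) (η : Fin k ↪ V),
      ext fs H η = ext f H η

/-- (SYF) for symmetric `f` the symmetrisation `symm` of `Uni2` is `m!` times `f` on 3-graphs: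
`symm f F = ∑ σ, f (sub F (Sum.map id σ))` and `sub F (Sum.map id σ) = pull (freePerm k σ) F` by
`sub_emb`. -/
def S_SYF : Prop := ∀ (k m : ℕ) (f : Finset (Finset (Fin k ⊕ Fin m)) → ℝ), IsSym f →
  ∀ F, Is3 F → symm f F = (m.factorial : ℝ) * f F

/-- (EXT) the extension counting lemma. `A` is embedded in `Q` by `β`. For embeddings `α : A ↪ V`,
`θ : B ↪ V` let `E(α, θ)` be the set of all `Ξ : Q ↪ V` with `Ξ ∘ β = α` and
`range θ ⊆ range Ξ`. Put `w τ = 1 / |E(β.trans Ξ, τ.trans Ξ)|` for any fixed `Ξ : Q ↪ V`; this does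
not depend on `Ξ` (`exists_perm` of `Samp.lean`: some permutation `π` of `V` has `π ∘ Ξ = Ξ'`, and
`Ξ₁ ↦ π ∘ Ξ₁` is a bijection of the two sets). The identity: sort the pairs `(Ξ, τ)`, `Ξ ∘ β = α`,
by `θ = τ.trans Ξ`; for given `θ` and `Ξ` there is one `τ` if `range θ ⊆ range Ξ` and none otherwise,
so there are `|E(α, θ)|` pairs, all with `w τ = 1 / |E(α, θ)|`. The bound: if `c ∉ range β`,
`c ∉ range τ`, change the value of `Ξ` at `c` to any of the `|V| - |Q| + 1` vertices which are not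
values of `Ξ` at the other points: these are different elements of `E(β.trans Ξ, τ.trans Ξ)`. -/
def S_EXT : Prop := ∀ (A Q B V : Type) [Fintype A] [DecidableEq A] [Fintype Q] [DecidableEq Q]
  [Fintype B] [DecidableEq B] [Fintype V] [DecidableEq V] (β : A ↪ Q),
  Fintype.card Q ≤ Fintype.card V →
  ∃ w : (B ↪ Q) → ℝ, (∀ τ, 0 ≤ w τ) ∧
    (∀ τ, (∃ c : Q, (∀ a, β a ≠ c) ∧ ∀ b, τ b ≠ c) →
      w τ ≤ 1 / ((Fintype.card V : ℝ) - Fintype.card Q + 1)) ∧
    ∀ (α : A ↪ V) (g : (B ↪ V) → ℝ),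
      (∑ Ξ ∈ univ.filter (fun Ξ : Q ↪ V => ∀ a, Ξ (β a) = α a), ∑ τ : B ↪ Q, w τ * g (τ.trans Ξ)) =
      ∑ θ ∈ univ.filter (fun θ : B ↪ V => ∃ Ξ : Q ↪ V, (∀ a, Ξ (β a) = α a) ∧ ∀ b, ∃ c, Ξ c = θ b), g θ

/-- (EMB) extension of an embedding: `α : A ↪ V` extends along `β : A ↪ Q` to an embedding of `Q` whose
range contains the range of `θ`, if `θ` has at most `|Q| - |A|` values outside the range of `α`. -/
def S_EMB : Prop := ∀ (A Q B V : Type) [Fintype A] [DecidableEq A] [Fintype Q] [DecidableEq Q]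
  [Fintype B] [DecidableEq B] [Fintype V] [DecidableEq V] (β : A ↪ Q) (α : A ↪ V) (θ : B ↪ V),
  Fintype.card Q ≤ Fintype.card V →
  Fintype.card A + (univ.filter fun b : B => ∀ a, α a ≠ θ b).card ≤ Fintype.card Q →
  ∃ Ξ : Q ↪ V, (∀ a, Ξ (β a) = α a) ∧ ∀ b, ∃ c, Ξ c = θ b

/-- (LOC) the square at finite `n = |V|` in local form. `finSq f H` is the sum of
`f (pull χ H) * f (pull χ' H)` over the pairs `χ, χ'` with the same roots. Apply `S_EXT` with
`A = B = Fin k ⊕ Fin m`, `Q = Fin k ⊕ (Fin m ⊕ Fin m)`, `β = left k m`, and, for fixed `χ = α`,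
`g θ = f (pull θ H)` if `θ` has the same roots as `χ`, and `0` otherwise (every such `θ` is in the
range: `χ'` has at most `m` vertices outside `range χ`). So
`finSq f H = ∑ Ξ, ∑ τ with τ ∘ inl = inl, w τ f (pull (left.trans Ξ) H) f (pull (τ.trans Ξ) H)`.
The `τ` whose further vertices avoid the left group are `(freePerm).trans (right k m)`, there
`f (pull (τ.trans Ξ) H) = f (pull ((right k m).trans Ξ) H)` by symmetry, and `∑ w τ = 1` over these `τ`
(apply the identity of `S_EXT` to `g θ = 1` if `θ` has the roots of `χ` and its further vertices are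
not in `range χ`, else `0`: both sides are counts, `Ξ ↦ (right k m).trans Ξ` is a bijection from the
`Ξ` with `left.trans Ξ = χ` onto these `θ`). All other `τ` with `τ ∘ inl = inl` miss some point `c` of
the right group, which gives the bound; put the new weights `0` at all `τ` not of this kind.
`|Q ↪ V| = descFactorial`. -/
def S_LOC : Prop := ∀ (k m : ℕ) (V : Type) [Fintype V] [DecidableEq V],
  k + 2 * m ≤ Fintype.card V →
  ∃ w : (Fin k ⊕ Fin m ↪ Fin k ⊕ (Fin m ⊕ Fin m)) → ℝ, (∀ a, 0 ≤ w a) ∧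
    (∀ a, w a ≤ 1 / ((Fintype.card V : ℝ) - ((k + 2 * m : ℕ) : ℝ) + 1)) ∧
    ∀ (f : Finset (Finset (Fin k ⊕ Fin m)) → ℝ), IsSym f → ∀ H : Finset (Finset V),
      finSq f H = ((Fintype.card V).descFactorial (k + 2 * m) : ℝ) *
        avg (fun G : Finset (Finset (Fin k ⊕ (Fin m ⊕ Fin m))) =>
          square f G + ∑ a, w a * (f (pull (left k m) G) * f (pull a G))) H

/-- (ISO) if no edge is lost, the sample `pull ψ (push ι G)` is isomorphic to `G`. Since
`|pull ψ (push ι G)| = |G|`, every edge `ι(e)`, `e ∈ G`, is inside `range ψ` (the edges of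
`pull ψ (push ι G)` map injectively to the edges of `push ι G` inside the range of `ψ`). Let `X` be the
union of the edges of `G`; `ψ⁻¹ ∘ ι` is an injection of `X` into `Fin N`; extend it to a permutation
`τ` (`Equiv.extendSubtype`), and `σ = τ⁻¹`: `e' ∈ pull ψ (push ι G)` iff `ψ(e') = ι(e)` for some
`e ∈ G` iff `e' = τ(e)` for some `e ∈ G` iff `σ(e') ∈ G`. -/
def S_ISO : Prop := ∀ (N : ℕ) (V : Type) [Fintype V] [DecidableEq V] (ι ψ : Fin N ↪ V)
  (G : Finset (Finset (Fin N))), (pull ψ (push ι G)).card = G.card →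
  ∃ σ : Equiv.Perm (Fin N), pull ψ (push ι G) = pull σ.toEmbedding G

/-- (UNQ) a local function which vanishes on all `K_4^3`-free 3-graphs on `V` vanishes. Strong
induction on `|G|`. Put `S(G) = avg Φ G` (`G` on `Fin N`; it is invariant under permutations of
`Fin N`). Let `ι : Fin N ↪ V` and `H = push ι G`, which is a `K_4^3`-free 3-graph. By `avg_avg`
`0 = avg Φ H = avg (fun G' => avg Φ G') H = (∑ ψ : Fin N ↪ V, S (pull ψ H)) / _`. For each `ψ` either
`|pull ψ H| < |G|`, and then `S (pull ψ H) = 0` by induction (`pull ψ H` is 3-uniform and `K_4^3`-free),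
or `|pull ψ H| = |G|`, and then `S (pull ψ H) = S(G)` by (ISO). For `ψ = ι` we have `pull ι H = G`. So a
positive multiple of `S(G)` is `0`. -/
def S_UNQ : Prop := ∀ (N : ℕ) (V : Type) [Fintype V] [DecidableEq V], N ≤ Fintype.card V →
  ∀ Φ : Finset (Finset (Fin N)) → ℝ,
    (∀ H : Finset (Finset V), Is3 H → K43Free H → avg Φ H = 0) →
    ∀ G : Finset (Finset (Fin N)), Is3 G → K43Free G → avg Φ G = 0

/-- (SQB) scaled version of `Uni4.symm_sq_sum` without the edge density: copy the proofs of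
`cert_avg`, `QU_sq_sum`, `symm_sq_sum` of `Pool/Agent/T2h36/Uni4.lean` with the hypothesis
`sos N r f G ≤ 1` instead of `edgeDens G + sos N r f G ≤ 1` (drop the edge density everywhere; in the
old proofs it is only used that it is nonnegative), and then apply it to `f / √s`. -/
def S_SQB : Prop := ∀ (N r : ℕ), 3 ≤ N →
  ∀ (f : ∀ k m : ℕ, Fin r → Finset (Finset (Fin k ⊕ Fin m)) → ℝ) (s : ℝ), 0 < s →
  (∀ G : Finset (Finset (Fin N)), Is3 G → K43Free G → sos N r f G ≤ s) →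
  ∀ k m : ℕ, (k, m) ∈ pairs N → ∀ F : Finset (Finset (Fin k ⊕ Fin m)), Is3 F → K43Free F →
    ∑ j : Fin r, symm (f k m j) F ^ 2 ≤ s * (8 * 4 ^ m * (((k : ℝ) + m) ^ (k + m)) ^ 2)

/-- (UG) the uniform gap: the theorem `result` of `Pool/Agent/Results/MP_f1799f_co/UniformGap.lean` -/
def S_UG : Prop := ∀ (N : ℕ), 3 ≤ N → ∀ (r : ℕ)
  (f : ∀ k m : ℕ, Fin r → Finset (Finset (Fin k ⊕ Fin m)) → ℝ) (lam : ℝ),
  (∀ G : Finset (Finset (Fin N)), Is3 G → K43Free G → edgeDens G + sos N r f G ≤ lam) →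
  5 / 9 + 1 / (2 * (N : ℝ)) ^ (6 * N + 27) ≤ lam

/-- (BND) the numerical part. `N = k + 2m`. Put `f₀ k' m' = f` for `(k', m') = (k, m)` and `0`
otherwise, so that `sos N r f₀ G = ∑ j, avg (square (f j)) G` (cast along `k' = k`, `m' = m`).
Let `B` be the maximum of `∑ j, f j F ^ 2` over the `K_4^3`-free 3-graphs `F` on `Fin k ⊕ Fin m`
(a finite set containing `∅`), and `A = |Fin k ⊕ Fin m ↪ Fin k ⊕ (Fin m ⊕ Fin m)| ≤ N^(k+m)`. For
`K_4^3`-free `G` all samples are `K_4^3`-free, so `|∑ j, avg (∑ a, w a ...)| ≤ ε A B`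
(`|∑ j, x j * y j| ≤ (∑ x j² + ∑ y j²)/2 ≤ B`), hence `sos ≤ lam - edgeDens G + ε A B ≤ 1 + ε A B =: s`.
By (SQB) and (SYF) `∑ j, f j F ^ 2 ≤ ∑ j, (m! f j F)^2 ≤ s C`, `C = 8 · 4^m ((k+m)^(k+m))²`, so
`B ≤ C + ε A C B ≤ C + B / 2` and `B ≤ 2 C`, because
`ε A C ≤ ε · 8 · 4^N N^(3N) ≤ ε · 8 (2N)^(3N) ≤ 8/36`. Now (UG) with `lam' = lam + ε A B` and
`ε A B ≤ 2 ε A C ≤ 16 ε (2N)^(3N) ≤ ε (2N)^(3N+2)`. -/
def S_BND : Prop := ∀ (k m : ℕ), 1 ≤ m → 3 ≤ k + 2 * m → ∀ (r : ℕ)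
  (f : Fin r → Finset (Finset (Fin k ⊕ Fin m)) → ℝ), (∀ j, IsSym (f j)) →
  ∀ (w : (Fin k ⊕ Fin m ↪ Fin k ⊕ (Fin m ⊕ Fin m)) → ℝ) (ε lam : ℝ), 0 ≤ ε →
  (∀ a, 0 ≤ w a) → (∀ a, w a ≤ ε) → lam ≤ 1 →
  ε * (2 * ((k + 2 * m : ℕ) : ℝ)) ^ (3 * (k + 2 * m) + 2) ≤ 1 →
  (∀ G : Finset (Finset (Fin (k + 2 * m))), Is3 G → K43Free G →
    edgeDens G + ∑ j : Fin r, avg (fun G' : Finset (Finset (Fin k ⊕ (Fin m ⊕ Fin m))) =>
      square (f j) G' + ∑ a, w a * (f j (pull (left k m) G') * f j (pull a G'))) G = lam) →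
  5 / 9 + 1 / (2 * ((k + 2 * m : ℕ) : ℝ)) ^ (6 * (k + 2 * m) + 27) ≤
    lam + ε * (2 * ((k + 2 * m : ℕ) : ℝ)) ^ (3 * (k + 2 * m) + 2)

/-- (LB) from a certificate at `n = |V|` to the gap, for flags with `k` roots and `m` further vertices.
First replace `f j` by its symmetrisation (SYM), `finSq` does not change. If `M > C(n,3)` there is
nothing to show (`5/9 + ... ≤ 1`). By (LOC), `edgeDens_eq` and `avg_avg` (twice, as in the proof of
`UniformGap`) the hypothesis says `avg Φ H = 0` for all `K_4^3`-free 3-graphs `H` on `V`, where for `G` on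
`Fin (k+2m)` `Φ G = avg psi3 G * C(n,3) + ∑ j, descFactorial * avg (...) G - M`; by (UNQ)
`avg Φ G = 0`, and `avg_avg` again gives `Φ G = 0`. Divide by `C(n,3)` and put `f'' = √(descFactorial/C(n,3)) f`,
`lam = M / C(n,3)`, `ε = 1/(n - N + 1)`, and apply (BND);
`ε (2N)^(3N+2) ≤ 1/(2 (2N)^(6N+27))` since `n - N + 1 ≥ 2 (2N)^(9N+29)`. -/
def S_LB : Prop := ∀ (k m : ℕ), 1 ≤ m → 3 ≤ k + 2 * m →
  ∀ (V : Type) [Fintype V] [DecidableEq V] (r : ℕ) (f : Fin r → Finset (Finset (Fin k ⊕ Fin m)) → ℝ) (M : ℝ),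
  (2 * (k + 2 * m)) ^ (9 * (k + 2 * m) + 30) ≤ Fintype.card V →
  (∀ H : Finset (Finset V), Is3 H → K43Free H → (H.card : ℝ) + ∑ j : Fin r, finSq (f j) H = M) →
  (5 / 9 + 1 / (2 * (2 * ((k + 2 * m : ℕ) : ℝ)) ^ (6 * (k + 2 * m) + 27))) *
    (((Fintype.card V).choose 3 : ℕ) : ℝ) ≤ M

/-- (SQRT) an invariant positive semidefinite kernel has an invariant square root.
`K` as a matrix is `∑ s, v s (v s)ᵀ`, positive semidefinite; `R = CFC.sqrt K` (open scoped MatrixOrder,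
`Mathlib/Analysis/Matrix/Order.lean`) is positive semidefinite with `R * R = K`. For a permutation `p` with
`K (p x) (p y) = K x y` the matrix `R' x y = R (p x) (p y)` is positive semidefinite with `R' * R' = K`,
so `R' = R` by `CFC.mul_self_eq_mul_self_iff` (or `CFC.sqrt_unique`). -/
def S_SQRT : Prop := ∀ (I S : Type) [Fintype I] [DecidableEq I] [Fintype S] (v : S → I → ℝ),
  ∃ R : I → I → ℝ, (∀ x y, R x y = R y x) ∧
    (∀ x y, ∑ s, v s x * v s y = ∑ z, R x z * R z y) ∧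
    ∀ p : Equiv.Perm I, (∀ x y, ∑ s, v s (p x) * v s (p y) = ∑ s, v s x * v s y) →
      ∀ x y, R (p x) (p y) = R x y

/-- (REL) an invariant sum over all samples is a sum of flags. `(EXT)` with `A = Fin d` (`β = inl`),
`Q = Fin d ⊕ Fin d`, `B = Fin d`: every `θ` is in the range (`θ` has at most `d` vertices outside
`range η`). Fix `χ₀ : Fin d ⊕ Fin d ↪ V` and put
`f G = ∑ τ : Fin d ↪ Fin d ⊕ Fin d, w τ * ρ (τ.trans χ₀) (inl.trans χ₀) (pull τ G)`. For every `χ` some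
permutation `π` has `π ∘ χ₀ = χ`, so `ρ (τ.trans χ₀) (inl.trans χ₀) E = ρ (τ.trans χ) (inl.trans χ) E`, and
for `χ` with the roots `η` the last is `ρ (τ.trans χ) η E`; use `pull_pull`. -/
def S_REL : Prop := ∀ (d : ℕ) (V : Type) [Fintype V] [DecidableEq V], 2 * d ≤ Fintype.card V →
  ∀ ρ : (Fin d ↪ V) → (Fin d ↪ V) → Finset (Finset (Fin d)) → ℝ,
  (∀ (π : Equiv.Perm V) θ η E, ρ (θ.trans π.toEmbedding) (η.trans π.toEmbedding) E = ρ θ η E) →
  ∃ f : Finset (Finset (Fin d ⊕ Fin d)) → ℝ, ∀ (H : Finset (Finset V)) (η : Fin d ↪ V),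
    ∑ θ : Fin d ↪ V, ρ θ η (pull θ H) = ext f H η

/-- (AVG) the average over all permutations of a sum of squares of functions of order `d` is a sum of
squares of flags with `d` roots and `d` further vertices. Index set `I = (Fin d ↪ V) × Finset (Finset (Fin d))`,
`S = Perm V × Fin r`, `v (π, i) (θ, E) = q i (θ.trans π) E` (or with `π⁻¹`), so that
`∑ θ, q i θ (pull θ (pull π⁻¹ H)) = ∑ θ, q i (θ.trans π) (pull θ H)` and the left side of the claim is
`(1/n!) ∑_{x,y} K x y b x H b y H`, `K x y = ∑ s, v s x * v s y`, `b (θ, E) H = 1` if `pull θ H = E` and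
`0` otherwise. `K` is invariant under `(θ, E) ↦ (θ.trans π, E)`. By (SQRT) it is
`∑_{z} (∑_x R x z b x H)²`, `z = (η, D)`. For each `D` apply (REL) to
`ρ θ η E = (1/√(n!)) R (θ, E) (η, D)`; the new index set is the finite type of the `D` (use
`Fintype.equivFin` to get `Fin r'`). -/
def S_AVG : Prop := ∀ (d : ℕ) (V : Type) [Fintype V] [DecidableEq V], 2 * d ≤ Fintype.card V →
  ∀ (r : ℕ) (q : Fin r → (Fin d ↪ V) → Finset (Finset (Fin d)) → ℝ),
  ∃ (r' : ℕ) (f : Fin r' → Finset (Finset (Fin d ⊕ Fin d)) → ℝ), ∀ H : Finset (Finset V),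
    (∑ π : Equiv.Perm V, ∑ i : Fin r, (∑ θ : Fin d ↪ V, q i θ (pull θ (pull π.toEmbedding H))) ^ 2) /
      (Fintype.card (Equiv.Perm V) : ℝ) = ∑ j : Fin r', finSq (f j) H

/-- (MAIN) the theorem for `K_4^3`-free 3-graphs: apply the hypothesis to `pull π H` for all permutations
`π` (same number of edges, 3-uniform and `K_4^3`-free), average, use (AVG) and (LB) with `k = m = d`. -/
def S_MAIN : Prop := ∀ (d : ℕ), 1 ≤ d → ∀ (V : Type) [Fintype V] [DecidableEq V] (r : ℕ)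
  (q : Fin r → (Fin d ↪ V) → Finset (Finset (Fin d)) → ℝ) (M : ℝ),
  (6 * d) ^ (27 * d + 30) ≤ Fintype.card V →
  (∀ H : Finset (Finset V), Is3 H → K43Free H →
    (H.card : ℝ) + ∑ i : Fin r, (∑ θ : Fin d ↪ V, q i θ (pull θ H)) ^ 2 = M) →
  (5 / 9 + 1 / (2 * (6 * (d : ℝ)) ^ (18 * d + 27))) * (((Fintype.card V).choose 3 : ℕ) : ℝ) ≤ M

/-- the value at the family `T` of the polynomial in the indicator variables of the triples whose
coefficient at the product over `B` is `c B`, restricted to the monomials which involve at most `d`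
vertices -/
noncomputable def poly {V : Type} [Fintype V] [DecidableEq V] (d : ℕ) (c : Finset (Finset V) → ℝ)
    (T : Finset (Finset V)) : ℝ :=
  ∑ B ∈ univ.filter (fun B : Finset (Finset V) => (B.biUnion id).card ≤ d), if B ⊆ T then c B else 0

/-- the complementary 3-graph -/
def compl3 {V : Type} [Fintype V] [DecidableEq V] (T : Finset (Finset V)) : Finset (Finset V) :=
  (univ.powersetCard 3) \ T

/-- (POLY) a polynomial all whose monomials involve at most `d` vertices is a function of order `d` of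
the complement `H`. For every `B` with `|⋃ B| ≤ d` choose `θ_B : Fin d ↪ V` with `⋃ B ⊆ range θ_B`, and put
`q θ E = ∑ B with θ_B = θ, if (∀ e ∈ B, |e| = 3 ∧ preimage of e under θ ∉ E) then c B else 0`
(for `e ⊆ range θ` with `|e| = 3`: the preimage is in `pull θ H` iff `e ∈ H`). -/
def S_POLY : Prop := ∀ (d : ℕ) (V : Type) [Fintype V] [DecidableEq V], d ≤ Fintype.card V →
  ∀ c : Finset (Finset V) → ℝ, ∃ q : (Fin d ↪ V) → Finset (Finset (Fin d)) → ℝ,
    ∀ H : Finset (Finset V), Is3 H → poly d c (compl3 H) = ∑ θ : Fin d ↪ V, q θ (pull θ H)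

/-- Turán's number `f(n)` -/
def turanNumber (n : ℕ) : ℕ :=
  if n % 3 = 0 then (2 * (n / 3) - 1) * (n / 3 - 1) * (n / 3)
  else if n % 3 = 1 then (2 * (n / 3) - 1) * (n / 3) ^ 2
  else (2 * (n / 3) + 1) * (n / 3) ^ 2

/-- (NUM) numerical end: `f(n) ≥ (2 n³ - 9 n² )/ 27` roughly (`f(n) ≥ 2n³/27 - n²/3`), and
`C(n,3) ≤ n³/6`, so `(4/9 - δ) C(n,3) ≤ 2 n³/27 - δ C(n,3)`, and with `X = (6d)^(18d+27)`, `δ = 1/(2X)`,
`C(n,3) ≥ n³/12`: `δ C(n,3) ≥ n³/(24 X) ≥ n³/(216 X) + n²/3` as `n ≥ (6d)^(27d+30) ≥ 216 X`. -/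
def S_NUM : Prop := ∀ (d n : ℕ), 1 ≤ d → (6 * d) ^ (27 * d + 30) ≤ n → ∀ b : ℝ,
  (5 / 9 + 1 / (2 * (6 * (d : ℝ)) ^ (18 * d + 27))) * ((n.choose 3 : ℕ) : ℝ) ≤ ((n.choose 3 : ℕ) : ℝ) - b →
  b ≤ (turanNumber n : ℝ) - (n : ℝ) ^ 3 / (6 * (d : ℝ)) ^ (18 * d + 30)

end Pool.Agent.T3h36
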