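import Pool.Agent.T3h36.Stm

/-!
# LOC: the square at finite `n` in local form
-/

set_option autoImplicit false
open Finset
open Pool.Agent.T2h36 Pool.Agent.T2h36.Uni

namespace Pool.Agent.T3h36.Loc

variable {k m : ℕ} {V : Type} [Fintype V] [DecidableEq V]

abbrev Q (k m : ℕ) : Type := Fin k ⊕ (Fin m ⊕ Fin m)

/-- the roots are fixed -/
def Rt (τ : Fin k ⊕ Fin m ↪ Q k m) : Prop := ∀ i, τ (Sum.inl i) = Sum.inl i
instance (τ : Fin k ⊕ Fin m ↪ Q k m) : Decidable (Rt τ) := by unfold Rt; infer_instance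

/-- the further vertices are in the second group -/
def Dj (τ : Fin k ⊕ Fin m ↪ Q k m) : Prop := ∀ x, ∃ y, τ (Sum.inr x) = Sum.inr (Sum.inr y)
instance (τ : Fin k ⊕ Fin m ↪ Q k m) : Decidable (Dj τ) := by unfold Dj; infer_instance

@[simp] theorem left_inl (i : Fin k) : left k m (Sum.inl i) = Sum.inl i := rfl
@[simp] theorem left_inr (x : Fin m) : left k m (Sum.inr x) = Sum.inr (Sum.inl x) := rfl
@[simp] theorem right_inl (i : Fin k) : right k m (Sum.inl i) = Sum.inl i := rfl
@[simp] theorem right_inr (x : Fin m) : right k m (Sum.inr x) = Sum.inr (Sum.inr x) := rfl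

theorem not_left (c : Q k m) : (∀ a, left k m a ≠ c) ↔ ∃ y, c = Sum.inr (Sum.inr y) := by
  constructor
  · intro h
    rcases c with i | x | y
    · exact absurd rfl (h (Sum.inl i))
    · exact absurd rfl (h (Sum.inr x))
    · exact ⟨y, rfl⟩
  · rintro ⟨y, rfl⟩ (i | x) h
    · simp at h
    · simp at h

/-- step 1 -/
theorem step1 (f : Finset (Finset (Fin k ⊕ Fin m)) → ℝ) (H : Finset (Finset V)) :
    finSq f H = ∑ χ : Fin k ⊕ Fin m ↪ V, f (pull χ H) *
      ∑ θ : Fin k ⊕ Fin m ↪ V, if ∀ i, θ (Sum.inl i) = χ (Sum.inl i) then f (pull θ H) else 0 := by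
  unfold finSq
  have h1 : ∀ η : Fin k ↪ V, ext f H η ^ 2 =
      ∑ χ : Fin k ⊕ Fin m ↪ V, if ∀ i, χ (Sum.inl i) = η i then f (pull χ H) * ext f H η else 0 := by
    intro η
    rw [sq]
    conv_lhs => rw [show ext f H η * ext f H η = (∑ χ : Fin k ⊕ Fin m ↪ V,
      if ∀ i, χ (Sum.inl i) = η i then f (pull χ H) else 0) * ext f H η from rfl]
    rw [Finset.sum_mul]
    refine Finset.sum_congr rfl fun χ _ => ?_
    split_ifs <;> simp
  rw [Finset.sum_congr rfl fun η _ => h1 η, Finset.sum_comm]
  refine Finset.sum_congr rfl fun χ _ => ?_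
  set η0 : Fin k ↪ V := Function.Embedding.inl.trans χ with hη0
  rw [Finset.sum_eq_single η0]
  · have hc : ∀ i, χ (Sum.inl i) = η0 i := fun i => rfl
    rw [if_pos hc]
    rfl
  · intro η _ hne
    rw [if_neg]
    intro h
    apply hne
    ext i
    rw [← h i]
    rfl
  · intro h
    exact absurd (mem_univ _) h

/-- summing over `χ` and the extensions of `χ` is summing over all embeddings -/
theorem sum_fib (F : (Fin k ⊕ Fin m ↪ V) → (Q k m ↪ V) → ℝ) :
    (∑ χ : Fin k ⊕ Fin m ↪ V, ∑ Ξ ∈ univ.filter (fun Ξ : Q k m ↪ V => ∀ a, Ξ (left k m a) = χ a), F χ Ξ) =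
    ∑ Ξ : Q k m ↪ V, F ((left k m).trans Ξ) Ξ := by
  simp_rw [Finset.sum_filter]
  rw [Finset.sum_comm]
  refine Finset.sum_congr rfl fun Ξ _ => ?_
  rw [Finset.sum_eq_single ((left k m).trans Ξ)]
  · have hc : ∀ a, Ξ (left k m a) = ((left k m).trans Ξ) a := fun a => rfl
    rw [if_pos hc]
  · intro χ _ hne
    rw [if_neg]
    intro h
    apply hne
    ext a
    rw [← h a]
    rfl
  · intro h
    exact absurd (mem_univ _) h

/-- the weights of the disjoint patterns sum to one -/
theorem sum_one (hV : k + 2 * m ≤ Fintype.card V) (w : (Fin k ⊕ Fin m ↪ Q k m) → ℝ)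
    (h2 : ∀ (α : Fin k ⊕ Fin m ↪ V) (g : (Fin k ⊕ Fin m ↪ V) → ℝ),
      (∑ Ξ ∈ univ.filter (fun Ξ : Q k m ↪ V => ∀ a, Ξ (left k m a) = α a),
        ∑ τ : Fin k ⊕ Fin m ↪ Q k m, w τ * g (τ.trans Ξ)) =
      ∑ θ ∈ univ.filter (fun θ : Fin k ⊕ Fin m ↪ V =>
        ∃ Ξ : Q k m ↪ V, (∀ a, Ξ (left k m a) = α a) ∧ ∀ b, ∃ c, Ξ c = θ b), g θ) :
    (∑ τ ∈ univ.filter (fun τ : Fin k ⊕ Fin m ↪ Q k m => Rt τ ∧ Dj τ), w τ) = 1 := by
  classical
  obtain ⟨Ξ0⟩ : Nonempty (Q k m ↪ V) := by
    refine Function.Embedding.nonempty_of_card_le ?_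
    simp only [Fintype.card_sum, Fintype.card_fin]
    omega
  set α : Fin k ⊕ Fin m ↪ V := (left k m).trans Ξ0 with hα
  set g : (Fin k ⊕ Fin m ↪ V) → ℝ := fun θ =>
    if (∀ i, θ (Sum.inl i) = α (Sum.inl i)) ∧ ∀ x a, α a ≠ θ (Sum.inr x) then 1 else 0 with hg
  have h := h2 α g
  set S := univ.filter (fun Ξ : Q k m ↪ V => ∀ a, Ξ (left k m a) = α a) with hS
  have hL : ∀ Ξ ∈ S, (∑ τ : Fin k ⊕ Fin m ↪ Q k m, w τ * g (τ.trans Ξ)) =
      ∑ τ ∈ univ.filter (fun τ : Fin k ⊕ Fin m ↪ Q k m => Rt τ ∧ Dj τ), w τ := by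
    intro Ξ hΞ
    rw [hS, mem_filter] at hΞ
    rw [Finset.sum_filter]
    refine Finset.sum_congr rfl fun τ _ => ?_
    have hiff : ((∀ i, (τ.trans Ξ) (Sum.inl i) = α (Sum.inl i)) ∧ ∀ x a, α a ≠ (τ.trans Ξ) (Sum.inr x)) ↔
        (Rt τ ∧ Dj τ) := by
      constructor
      · rintro ⟨h1, h3⟩
        constructor
        · intro i
          have := h1 i
          rw [← hΞ.2 (Sum.inl i)] at this
          exact Ξ.injective this
        · intro x
          apply (not_left _).mp
          intro a ha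
          apply h3 x a
          rw [← hΞ.2 a, ha]
          rfl
      · rintro ⟨h1, h3⟩
        constructor
        · intro i
          rw [← hΞ.2 (Sum.inl i)]
          show Ξ (τ (Sum.inl i)) = _
          rw [h1 i]
          rfl
        · intro x a hxa
          rw [← hΞ.2 a] at hxa
          have := Ξ.injective hxa
          exact (not_left _).mpr (h3 x) a this
    rw [hg]
    simp only
    by_cases hc : Rt τ ∧ Dj τ
    · rw [if_pos hc, if_pos (hiff.mpr hc), mul_one]
    · rw [if_neg hc, if_neg (fun h => hc (hiff.mp h)), mul_zero]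
  rw [Finset.sum_congr rfl hL, Finset.sum_const, nsmul_eq_mul] at h
  have hR : (∑ θ ∈ univ.filter (fun θ : Fin k ⊕ Fin m ↪ V =>
        ∃ Ξ : Q k m ↪ V, (∀ a, Ξ (left k m a) = α a) ∧ ∀ b, ∃ c, Ξ c = θ b), g θ) = (S.card : ℝ) := by
    rw [hg, Finset.sum_boole]
    congr 1
    symm
    refine Finset.card_bij (fun Ξ _ => (right k m).trans Ξ) ?_ ?_ ?_
    · intro Ξ hΞ
      rw [hS, mem_filter] at hΞ
      simp only [mem_filter, mem_univ, true_and]
      refine ⟨⟨Ξ, hΞ.2, fun b => ⟨right k m b, rfl⟩⟩, ?_, ?_⟩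
      · intro i
        rw [← hΞ.2 (Sum.inl i)]
        rfl
      · intro x a hxa
        rw [← hΞ.2 a] at hxa
        have := Ξ.injective hxa
        exact (not_left _).mpr ⟨x, rfl⟩ a this
    · intro Ξ hΞ Ξ' hΞ' he
      rw [hS, mem_filter] at hΞ hΞ'
      ext c
      rcases c with i | x | y
      · rw [show (Sum.inl i : Q k m) = left k m (Sum.inl i) from rfl, hΞ.2, hΞ'.2]
      · rw [show (Sum.inr (Sum.inl x) : Q k m) = left k m (Sum.inr x) from rfl, hΞ.2, hΞ'.2]
      · have := DFunLike.congr_fun he (Sum.inr y)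
        exact this
    · intro θ hθ
      simp only [mem_filter, mem_univ, true_and] at hθ
      obtain ⟨-, hθ1, hθ2⟩ := hθ
      let F : Q k m → V := fun c => match c with
        | Sum.inl i => α (Sum.inl i)
        | Sum.inr (Sum.inl x) => α (Sum.inr x)
        | Sum.inr (Sum.inr y) => θ (Sum.inr y)
      have hF : Function.Injective F := by
        rintro (i | x | y) (i' | x' | y') hh
        · have := α.injective hh
          simpa using this
        · have := α.injective hh
          simp at this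
        · exact absurd hh (hθ2 y' (Sum.inl i))
        · have := α.injective hh
          simp at this
        · have := α.injective hh
          simpa using this
        · exact absurd hh (hθ2 y' (Sum.inr x))
        · exact absurd hh.symm (hθ2 y (Sum.inl i'))
        · exact absurd hh.symm (hθ2 y (Sum.inr x'))
        · have := θ.injective hh
          simpa using this
      refine ⟨⟨F, hF⟩, ?_, ?_⟩
      · rw [hS, mem_filter]
        refine ⟨mem_univ _, ?_⟩
        rintro (i | x) <;> rfl
      · ext b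
        rcases b with i | y
        · exact (hθ1 i).symm
        · rfl
  rw [hR] at h
  have hpos : (0 : ℝ) < (S.card : ℝ) := by
    have : 0 < S.card := by
      refine Finset.card_pos.mpr ⟨Ξ0, ?_⟩
      rw [hS, mem_filter]
      exact ⟨mem_univ _, fun a => rfl⟩
    exact_mod_cast this
  have := mul_left_cancel₀ hpos.ne' (h.trans (mul_one _).symm)
  exact this

/-- on disjoint patterns a symmetric function has the value of the second flag -/
theorem sym_val (f : Finset (Finset (Fin k ⊕ Fin m)) → ℝ) (hf : IsSym f)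
    (τ : Fin k ⊕ Fin m ↪ Q k m) (h1 : Rt τ) (h2 : Dj τ) (G : Finset (Finset (Q k m))) :
    f (pull τ G) = f (pull (right k m) G) := by
  classical
  choose s hs using h2
  have hinj : Function.Injective s := by
    intro x y hxy
    have : τ (Sum.inr x) = τ (Sum.inr y) := by rw [hs, hs, hxy]
    simpa using τ.injective this
  set σ : Equiv.Perm (Fin m) := Equiv.ofBijective s (Finite.injective_iff_bijective.mp hinj) with hσ
  have he : τ = (freePerm k σ).trans (right k m) := by
    ext b
    rcases b with i | x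
    · rw [h1 i]
      rfl
    · rw [hs x]
      rfl
  rw [he, ← pull_pull, hf σ]

theorem main (hE : S_EXT) (hM : S_EMB) : S_LOC := by
  classical
  intro k m V _ _ hV
  obtain ⟨w0, h0, h1, h2⟩ := hE (Fin k ⊕ Fin m) (Q k m) (Fin k ⊕ Fin m) V (left k m)
    (by simp only [Fintype.card_sum, Fintype.card_fin]; omega)
  refine ⟨fun τ => if Rt τ ∧ ¬ Dj τ then w0 τ else 0, ?_, ?_, ?_⟩
  · intro τ
    simp only
    split_ifs
    · exact h0 τ
    · exact le_refl _
  · intro τ
    have hnn : (0 : ℝ) ≤ 1 / ((Fintype.card V : ℝ) - ((k + 2 * m : ℕ) : ℝ) + 1) := by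
      have : ((k + 2 * m : ℕ) : ℝ) ≤ (Fintype.card V : ℝ) := by exact_mod_cast hV
      apply div_nonneg zero_le_one
      linarith
    simp only
    split_ifs with hc
    · obtain ⟨hr, hd⟩ := hc
      have hcard : (Fintype.card (Q k m) : ℝ) = ((k + 2 * m : ℕ) : ℝ) := by
        simp only [Fintype.card_sum, Fintype.card_fin]
        push_cast
        ring
      rw [← hcard]
      apply h1
      -- a point of the second group outside the range
      by_contra hno
      push Not at hno
      apply hd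
      -- the second group is in the range of the further vertices
      have hy : ∀ y : Fin m, ∃ x : Fin m, τ (Sum.inr x) = Sum.inr (Sum.inr y) := by
        intro y
        obtain ⟨b, hb⟩ := hno (Sum.inr (Sum.inr y)) ((not_left _).mpr ⟨y, rfl⟩)
        rcases b with i | x
        · rw [hr i] at hb
          simp at hb
        · exact ⟨x, hb⟩
      choose s hs using hy
      have hinj : Function.Injective s := by
        intro y y' hyy
        have : (Sum.inr (Sum.inr y) : Q k m) = Sum.inr (Sum.inr y') := by rw [← hs, ← hs, hyy]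
        simpa using this
      have hsurj : Function.Surjective s := Finite.surjective_of_injective hinj
      intro x
      obtain ⟨y, rfl⟩ := hsurj x
      exact ⟨y, hs y⟩
    · exact hnn
  · intro f hf H
    have hcardN : Fintype.card (Q k m ↪ V) = (Fintype.card V).descFactorial (k + 2 * m) := by
      rw [Fintype.card_embedding_eq]
      congr 1
      simp only [Fintype.card_sum, Fintype.card_fin]
      ring
    have hpos : (0 : ℝ) < ((Fintype.card V).descFactorial (k + 2 * m) : ℝ) := by
      have : 0 < (Fintype.card V).descFactorial (k + 2 * m) := Nat.descFactorial_pos.mpr hV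
      exact_mod_cast this
    have hR : ((Fintype.card V).descFactorial (k + 2 * m) : ℝ) *
        avg (fun G : Finset (Finset (Q k m)) =>
          square f G + ∑ a, (if Rt a ∧ ¬ Dj a then w0 a else 0) * (f (pull (left k m) G) * f (pull a G))) H =
        ∑ Ξ : Q k m ↪ V, (square f (pull Ξ H) + ∑ a, (if Rt a ∧ ¬ Dj a then w0 a else 0) *
          (f (pull (left k m) (pull Ξ H)) * f (pull a (pull Ξ H)))) := by
      unfold avg
      rw [hcardN]
      field_simp
    rw [hR, step1]
    -- the inner sum by the extension lemma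
    have hin : ∀ χ : Fin k ⊕ Fin m ↪ V,
        (∑ θ : Fin k ⊕ Fin m ↪ V, if ∀ i, θ (Sum.inl i) = χ (Sum.inl i) then f (pull θ H) else 0) =
        ∑ Ξ ∈ univ.filter (fun Ξ : Q k m ↪ V => ∀ a, Ξ (left k m a) = χ a),
          ∑ τ : Fin k ⊕ Fin m ↪ Q k m, w0 τ *
            (if ∀ i, (τ.trans Ξ) (Sum.inl i) = χ (Sum.inl i) then f (pull (τ.trans Ξ) H) else 0) := by
      intro χ
      rw [h2 χ (fun θ => if ∀ i, θ (Sum.inl i) = χ (Sum.inl i) then f (pull θ H) else 0)]
      symm
      apply Finset.sum_subset (filter_subset _ _)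
      intro θ _ hθ
      rw [if_neg]
      intro hroot
      apply hθ
      rw [mem_filter]
      refine ⟨mem_univ _, ?_⟩
      refine hM _ _ _ _ (left k m) χ θ (by simp only [Fintype.card_sum, Fintype.card_fin]; omega) ?_
      have hsub : (univ.filter fun b : Fin k ⊕ Fin m => ∀ a, χ a ≠ θ b) ⊆
          (univ : Finset (Fin m)).map ⟨Sum.inr, Sum.inr_injective⟩ := by
        intro b hb
        rw [mem_filter] at hb
        rcases b with i | x
        · exact absurd (hroot i).symm (hb.2 (Sum.inl i))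
        · simp
      have := Finset.card_le_card hsub
      rw [card_map, card_univ, Fintype.card_fin] at this
      simp only [Fintype.card_sum, Fintype.card_fin]
      omega
    have hstep : (∑ χ : Fin k ⊕ Fin m ↪ V, f (pull χ H) *
        ∑ θ : Fin k ⊕ Fin m ↪ V, if ∀ i, θ (Sum.inl i) = χ (Sum.inl i) then f (pull θ H) else 0) =
        ∑ χ : Fin k ⊕ Fin m ↪ V, ∑ Ξ ∈ univ.filter (fun Ξ : Q k m ↪ V => ∀ a, Ξ (left k m a) = χ a),
          f (pull χ H) * ∑ τ : Fin k ⊕ Fin m ↪ Q k m, w0 τ *
            (if ∀ i, (τ.trans Ξ) (Sum.inl i) = χ (Sum.inl i) then f (pull (τ.trans Ξ) H) else 0) := by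
      refine Finset.sum_congr rfl fun χ _ => ?_
      rw [hin χ, Finset.mul_sum]
    rw [hstep, sum_fib (fun χ Ξ => f (pull χ H) * ∑ τ : Fin k ⊕ Fin m ↪ Q k m, w0 τ *
            (if ∀ i, (τ.trans Ξ) (Sum.inl i) = χ (Sum.inl i) then f (pull (τ.trans Ξ) H) else 0))]
    refine Finset.sum_congr rfl fun Ξ _ => ?_
    have hone := sum_one hV w0 h2
    -- split
    have hroot : ∀ τ : Fin k ⊕ Fin m ↪ Q k m,
        (∀ i, (τ.trans Ξ) (Sum.inl i) = ((left k m).trans Ξ) (Sum.inl i)) ↔ Rt τ := by
      intro τ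
      constructor
      · intro h i
        exact Ξ.injective (h i)
      · intro h i
        show Ξ (τ (Sum.inl i)) = Ξ (Sum.inl i)
        rw [h i]
    have e1 : (∑ τ : Fin k ⊕ Fin m ↪ Q k m, w0 τ *
        (if ∀ i, (τ.trans Ξ) (Sum.inl i) = ((left k m).trans Ξ) (Sum.inl i) then
          f (pull (τ.trans Ξ) H) else 0)) =
        (∑ τ ∈ univ.filter (fun τ : Fin k ⊕ Fin m ↪ Q k m => Rt τ ∧ Dj τ), w0 τ) *
          f (pull (right k m) (pull Ξ H)) +
        ∑ τ : Fin k ⊕ Fin m ↪ Q k m, (if Rt τ ∧ ¬ Dj τ then w0 τ else 0) * f (pull τ (pull Ξ H)) := by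
      rw [Finset.sum_filter, Finset.sum_mul, ← Finset.sum_add_distrib]
      refine Finset.sum_congr rfl fun τ _ => ?_
      by_cases hr : Rt τ
      · rw [if_pos ((hroot τ).mpr hr), ← pull_pull]
        by_cases hd : Dj τ
        · rw [if_pos ⟨hr, hd⟩, if_neg (fun h => h.2 hd), sym_val f hf τ hr hd]
          ring
        · rw [if_neg (fun h => hd h.2), if_pos ⟨hr, hd⟩]
          ring
      · rw [if_neg (fun h => hr ((hroot τ).mp h)), if_neg (fun h => hr h.1), if_neg (fun h => hr h.1)]
        ring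
    rw [e1, hone, one_mul, ← pull_pull, mul_add, Finset.mul_sum]
    unfold square
    congr 1
    refine Finset.sum_congr rfl fun τ _ => ?_
    ring

end Pool.Agent.T3h36.Loc

namespace Pool.Agent.T3h36
theorem t_LOC (hE : S_EXT) (hM : S_EMB) : S_LOC := Loc.main hE hM
end Pool.Agent.T3h36
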