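import Pool.Agent.T3h36.StmK

/-!
# Project LS: task MAINK
-/

set_option autoImplicit false
open Finset
open Pool.Agent.T2h36 Pool.Agent.T2h36.Uni

namespace Pool.Agent.T3h36

namespace MAINK

variable {V : Type} [Fintype V] [DecidableEq V]

theorem map_symm (π : Equiv.Perm V) (e : Finset V) : (e.map π.symm.toEmbedding).map π.toEmbedding = e := by
  rw [Finset.map_map]
  ext x
  simp

theorem map_symm' (π : Equiv.Perm V) (e : Finset V) : (e.map π.toEmbedding).map π.symm.toEmbedding = e := by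
  rw [Finset.map_map]
  ext x
  simp

theorem card_perm (π : Equiv.Perm V) (H : Finset (Finset V)) : (pull π.toEmbedding H).card = H.card := by
  refine Finset.card_bij' (fun e _ => e.map π.toEmbedding) (fun e _ => e.map π.symm.toEmbedding) ?_ ?_ ?_ ?_
  · intro e he
    exact (mem_pull _ _ _).1 he
  · intro e he
    rw [mem_pull, map_symm]
    exact he
  · intro e _
    exact map_symm' π e
  · intro e _
    exact map_symm π e

theorem free_perm {κ : ℕ} (π : Equiv.Perm V) {H : Finset (Finset V)} (h : CliqueFree3 κ H) :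
    CliqueFree3 κ (pull π.toEmbedding H) := by
  intro S hS
  obtain ⟨T, hT, hT3, hTH⟩ := h (S.map π.toEmbedding) (by rw [Finset.card_map, hS])
  refine ⟨T.map π.symm.toEmbedding, ?_, by rw [Finset.card_map, hT3], ?_⟩
  · rw [← map_symm' π S]
    exact Finset.map_subset_map.2 hT
  · rw [mem_pull, map_symm]
    exact hTH

end MAINK

open MAINK in
theorem t_MAINK (ha : S_AVG) (hl : S_LBK) : S_MAINK := by
  intro κ hκ d hd V _ _ r q M hV hM
  have hV2 : 2 * d ≤ Fintype.card V := by
    refine le_trans ?_ hV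
    have h1 : 1 ≤ (κ - 1) ^ 2 := Nat.one_le_pow _ _ (by omega)
    calc 2 * d ≤ 6 * d := by omega
      _ = (6 * d) ^ 1 := (pow_one _).symm
      _ ≤ (6 * d) ^ (27 * d + 23) := Nat.pow_le_pow_right (by omega) (by omega)
      _ = 1 * (6 * d) ^ (27 * d + 23) := (one_mul _).symm
      _ ≤ (κ - 1) ^ 2 * (6 * d) ^ (27 * d + 23) := Nat.mul_le_mul_right _ h1
  obtain ⟨r', f, hf⟩ := ha d V hV2 r q
  have h1 : ∀ H : Finset (Finset V), Is3 H → CliqueFree3 κ H →
      (H.card : ℝ) + ∑ j : Fin r', finSq (f j) H = M := by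
    intro H h3 h4
    have hn0 : (Fintype.card (Equiv.Perm V) : ℝ) ≠ 0 := Nat.cast_ne_zero.2 Fintype.card_ne_zero
    have h5 : ∀ π : Equiv.Perm V,
        ∑ i : Fin r, (∑ θ : Fin d ↪ V, q i θ (pull θ (pull π.toEmbedding H))) ^ 2 = M - H.card := by
      intro π
      have := hM (pull π.toEmbedding H) (is3_pull _ h3) (free_perm π h4)
      rw [card_perm] at this
      linarith
    rw [← hf H, Finset.sum_congr rfl fun π _ => h5 π, Finset.sum_const, Finset.card_univ, nsmul_eq_mul,
      mul_div_cancel_left₀ _ hn0]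
    ring
  have h2 := hl κ hκ d d hd (by omega) V r' f M (by
    have e1 : 2 * (d + 2 * d) = 6 * d := by ring
    have e2 : 9 * (d + 2 * d) + 23 = 27 * d + 23 := by ring
    rw [e1, e2]
    exact hV) h1
  have e1 : 2 * ((d + 2 * d : ℕ) : ℝ) = 6 * (d : ℝ) := by
    push_cast
    ring
  have e2 : 6 * (d + 2 * d) + 20 = 18 * d + 20 := by ring
  rw [e1, e2] at h2
  exact h2

end Pool.Agent.T3h36
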