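import Pool.Agent.T3h36.Stm

/-!
# Project LS: task AVG
-/

set_option autoImplicit false
open Finset
open Pool.Agent.T2h36 Pool.Agent.T2h36.Uni

namespace Pool.Agent.T3h36

namespace AVG

variable {V : Type} [Fintype V] [DecidableEq V] {d : ℕ}

/-- composition with a permutation of the vertices -/
def tr (π : Equiv.Perm V) : (Fin d ↪ V) ≃ (Fin d ↪ V) where
  toFun θ := θ.trans π.toEmbedding
  invFun θ := θ.trans π.symm.toEmbedding
  left_inv θ := by
    ext x
    simp
  right_inv θ := by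
    ext x
    simp

theorem tr_apply (π : Equiv.Perm V) (θ : Fin d ↪ V) : tr π θ = θ.trans π.toEmbedding := rfl

theorem tr_mul (π τ : Equiv.Perm V) (θ : Fin d ↪ V) :
    (θ.trans π.toEmbedding).trans τ.toEmbedding = θ.trans (τ * π).toEmbedding := by
  ext x
  rfl

/-- reindexing the samples of the permuted 3-graph -/
theorem reindex (π : Equiv.Perm V) (g : (Fin d ↪ V) → Finset (Finset (Fin d)) → ℝ) (H : Finset (Finset V)) :
    ∑ θ : Fin d ↪ V, g θ (pull θ (pull π.toEmbedding H)) =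
      ∑ θ : Fin d ↪ V, g (θ.trans (π⁻¹ : Equiv.Perm V).toEmbedding) (pull θ H) := by
  rw [← Equiv.sum_comp (tr π) fun θ => g (θ.trans (π⁻¹ : Equiv.Perm V).toEmbedding) (pull θ H)]
  refine Finset.sum_congr rfl fun θ _ => ?_
  rw [tr_apply, tr_mul, pull_pull]
  congr 1
  ext x
  simp

/-- the sum of the squares -/
theorem sq_expand {I S : Type} [Fintype I] [Fintype S] (v : S → I → ℝ) (R : I → I → ℝ)
    (hs : ∀ x y, R x y = R y x) (hR : ∀ x y, ∑ s, v s x * v s y = ∑ z, R x z * R z y) (b : I → ℝ) :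
    ∑ s, (∑ x, v s x * b x) ^ 2 = ∑ z, (∑ x, R x z * b x) ^ 2 := by
  have h1 : ∑ s, (∑ x, v s x * b x) ^ 2 = ∑ x, ∑ y, (∑ s, v s x * v s y) * (b x * b y) := by
    have : ∀ s, (∑ x, v s x * b x) ^ 2 = ∑ x, ∑ y, v s x * v s y * (b x * b y) := by
      intro s
      rw [sq, Finset.sum_mul_sum]
      exact Finset.sum_congr rfl fun x _ => Finset.sum_congr rfl fun y _ => by ring
    rw [Finset.sum_congr rfl fun s _ => this s, Finset.sum_comm]
    refine Finset.sum_congr rfl fun x _ => ?_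
    rw [Finset.sum_comm]
    exact Finset.sum_congr rfl fun y _ => (Finset.sum_mul _ _ _).symm
  have h2 : ∑ z, (∑ x, R x z * b x) ^ 2 = ∑ x, ∑ y, (∑ z, R x z * R z y) * (b x * b y) := by
    have : ∀ z, (∑ x, R x z * b x) ^ 2 = ∑ x, ∑ y, R x z * R z y * (b x * b y) := by
      intro z
      rw [sq, Finset.sum_mul_sum]
      exact Finset.sum_congr rfl fun x _ => Finset.sum_congr rfl fun y _ => by rw [hs z y]; ring
    rw [Finset.sum_congr rfl fun s _ => this s, Finset.sum_comm]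
    refine Finset.sum_congr rfl fun x _ => ?_
    rw [Finset.sum_comm]
    exact Finset.sum_congr rfl fun y _ => (Finset.sum_mul _ _ _).symm
  rw [h1, h2]
  exact Finset.sum_congr rfl fun x _ => Finset.sum_congr rfl fun y _ => by rw [hR]

/-- evaluation at the indicator of the samples -/
theorem eval (g : (Fin d ↪ V) × Finset (Finset (Fin d)) → ℝ) (H : Finset (Finset V)) :
    ∑ x : (Fin d ↪ V) × Finset (Finset (Fin d)), g x * (if pull x.1 H = x.2 then 1 else 0) =
      ∑ θ : Fin d ↪ V, g (θ, pull θ H) := by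
  rw [Fintype.sum_prod_type]
  refine Finset.sum_congr rfl fun θ _ => ?_
  simp

/-- the action on the index set -/
def act (π : Equiv.Perm V) : Equiv.Perm ((Fin d ↪ V) × Finset (Finset (Fin d))) :=
  Equiv.prodCongr (tr π) (Equiv.refl _)

theorem act_apply (π : Equiv.Perm V) (θ : Fin d ↪ V) (E : Finset (Finset (Fin d))) :
    act π (θ, E) = (θ.trans π.toEmbedding, E) := rfl

end AVG

open AVG in
theorem t_AVG (hq : S_SQRT) (hr : S_REL) : S_AVG := by
  intro d V _ _ hV r q
  set n : ℝ := (Fintype.card (Equiv.Perm V) : ℝ) with hn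
  have hn0 : 0 < n := by
    rw [hn]
    exact Nat.cast_pos.2 Fintype.card_pos
  set v : (Equiv.Perm V × Fin r) → ((Fin d ↪ V) × Finset (Finset (Fin d))) → ℝ :=
    fun s x => q s.2 (x.1.trans s.1.toEmbedding) x.2 with hv
  obtain ⟨R, hs, hR, hinv⟩ := hq ((Fin d ↪ V) × Finset (Finset (Fin d))) (Equiv.Perm V × Fin r) v
  have hK : ∀ (π : Equiv.Perm V) (x y : (Fin d ↪ V) × Finset (Finset (Fin d))),
      ∑ s, v s (act π x) * v s (act π y) = ∑ s, v s x * v s y := by
    rintro π ⟨θ, E⟩ ⟨η, D⟩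
    rw [Fintype.sum_prod_type, Fintype.sum_prod_type,
      ← Equiv.sum_comp (Equiv.mulRight π) fun τ : Equiv.Perm V => ∑ i : Fin r, v (τ, i) (θ, E) * v (τ, i) (η, D)]
    rfl
  have hRi : ∀ (π : Equiv.Perm V) (θ η : Fin d ↪ V) (E D : Finset (Finset (Fin d))),
      R (θ.trans π.toEmbedding, E) (η.trans π.toEmbedding, D) = R (θ, E) (η, D) := fun π θ η E D =>
    hinv (act π) (hK π) (θ, E) (η, D)
  have hrel : ∀ D : Finset (Finset (Fin d)), ∃ f : Finset (Finset (Fin d ⊕ Fin d)) → ℝ,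
      ∀ (H : Finset (Finset V)) (η : Fin d ↪ V),
        ∑ θ : Fin d ↪ V, (1 / Real.sqrt n) * R (θ, pull θ H) (η, D) = ext f H η := fun D =>
    hr d V hV (fun θ η E => (1 / Real.sqrt n) * R (θ, E) (η, D)) fun π θ η E => by
      show (1 / Real.sqrt n) * R _ _ = (1 / Real.sqrt n) * R _ _
      rw [hRi]
  choose f hf using hrel
  refine ⟨Fintype.card (Finset (Finset (Fin d))), fun j => f ((Fintype.equivFin _).symm j), fun H => ?_⟩
  rw [Equiv.sum_comp (Fintype.equivFin (Finset (Finset (Fin d)))).symm fun D => finSq (f D) H]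
  have h1 : ∑ π : Equiv.Perm V, ∑ i : Fin r, (∑ θ : Fin d ↪ V, q i θ (pull θ (pull π.toEmbedding H))) ^ 2 =
      ∑ s : Equiv.Perm V × Fin r, (∑ x, v s x * (if pull x.1 H = x.2 then 1 else 0)) ^ 2 := by
    rw [Fintype.sum_prod_type, ← Equiv.sum_comp (Equiv.inv (Equiv.Perm V)) fun π : Equiv.Perm V =>
      ∑ i : Fin r, (∑ x, v (π, i) x * (if pull x.1 H = x.2 then 1 else 0)) ^ 2]
    refine Finset.sum_congr rfl fun π _ => Finset.sum_congr rfl fun i _ => ?_
    rw [eval, reindex]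
    rfl
  have h2 : ∀ z : (Fin d ↪ V) × Finset (Finset (Fin d)),
      ∑ x, R x z * (if pull x.1 H = x.2 then 1 else 0) = ∑ θ : Fin d ↪ V, R (θ, pull θ H) z := fun z =>
    eval (fun x => R x z) H
  rw [h1, sq_expand v R hs hR, Fintype.sum_prod_type, Finset.sum_comm, Finset.sum_div]
  refine Finset.sum_congr rfl fun D _ => ?_
  rw [finSq, Finset.sum_div]
  refine Finset.sum_congr rfl fun η _ => ?_
  rw [h2, ← hf D H η, ← Finset.mul_sum, mul_pow, div_pow, Real.sq_sqrt hn0.le]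
  ring

end Pool.Agent.T3h36
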