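import Pool.Agent.T3h36.Stm

set_option autoImplicit false
open Finset
open Pool.Agent.T2h36 Pool.Agent.T2h36.Uni

namespace Pool.Agent.T3h36

theorem t_EMB : S_EMB := by
  intro A Q B V _ _ _ _ _ _ _ _ β α θ hQV hB
  classical
  obtain ⟨e0⟩ : Nonempty (Q ↪ V) := Function.Embedding.nonempty_of_card_le hQV
  set X : Finset V := (univ.image α) ∪ ((univ.filter fun b : B => ∀ a, α a ≠ θ b).image θ) with hX
  have hXc : X.card ≤ Fintype.card Q := by
    calc X.card ≤ (univ.image α).card + ((univ.filter fun b : B => ∀ a, α a ≠ θ b).image θ).card :=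
          card_union_le _ _
      _ ≤ Fintype.card A + (univ.filter fun b : B => ∀ a, α a ≠ θ b).card :=
          Nat.add_le_add (by simpa using (card_image_le (s := (univ : Finset A)) (f := α)))
            card_image_le
      _ ≤ Fintype.card Q := hB
  obtain ⟨Y, hXY, -, hY⟩ := exists_subsuperset_card_eq (subset_univ X) hXc
    (by simpa using hQV)
  obtain ⟨g, hg⟩ := Finset.exists_equiv_extend_of_card_eq (α := Q) (t := Y) hY.symm
    (s := univ.image β) (f := Function.extend β α e0)
    (by
      intro v hv
      simp only [mem_image, mem_univ, true_and] at hv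
      obtain ⟨q, ⟨a, rfl⟩, rfl⟩ := hv
      rw [β.injective.extend_apply]
      exact hXY (mem_union_left _ (mem_image_of_mem _ (mem_univ _))))
    (by
      intro x hx y hy hxy
      simp only [coe_image, coe_univ, Set.image_univ, Set.mem_range] at hx hy
      obtain ⟨a, rfl⟩ := hx
      obtain ⟨b, rfl⟩ := hy
      rw [β.injective.extend_apply, β.injective.extend_apply] at hxy
      rw [α.injective hxy])
  refine ⟨g.toEmbedding.trans (Function.Embedding.subtype _), fun a => ?_, fun b => ?_⟩
  · have := hg (β a) (mem_image_of_mem _ (mem_univ _))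
    rw [β.injective.extend_apply] at this
    exact this
  · have hb : θ b ∈ Y := by
      apply hXY
      by_cases h : ∀ a, α a ≠ θ b
      · exact mem_union_right _ (mem_image_of_mem _ (by simpa using h))
      · push Not at h
        obtain ⟨a, ha⟩ := h
        rw [← ha]
        exact mem_union_left _ (mem_image_of_mem _ (mem_univ _))
    refine ⟨g.symm ⟨θ b, hb⟩, ?_⟩
    show ((g (g.symm ⟨θ b, hb⟩) : Y) : V) = θ b
    rw [Equiv.apply_symm_apply]

end Pool.Agent.T3h36
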