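import Pool.Agent.T3h36.Stm

/-! LS: the extension counting lemma. -/

set_option autoImplicit false
set_option linter.unusedSectionVars false
open Finset
open Pool.Agent.T2h36 Pool.Agent.T2h36.Uni

namespace Pool.Agent.T3h36

namespace EXT

section

variable {A Q B V : Type} [Fintype A] [DecidableEq A] [Fintype Q] [DecidableEq Q]
  [Fintype B] [DecidableEq B] [Fintype V] [DecidableEq V]

/-- the embeddings of `Q` which extend `α` along `β` and whose range contains the range of `θ` -/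
noncomputable def E (β : A ↪ Q) (α : A ↪ V) (θ : B ↪ V) : Finset (Q ↪ V) :=
  univ.filter (fun Ξ : Q ↪ V => (∀ a, Ξ (β a) = α a) ∧ ∀ b, ∃ c, Ξ c = θ b)

theorem mem_E {β : A ↪ Q} {α : A ↪ V} {θ : B ↪ V} {Ξ : Q ↪ V} :
    Ξ ∈ E β α θ ↔ (∀ a, Ξ (β a) = α a) ∧ ∀ b, ∃ c, Ξ c = θ b := by
  unfold E
  rw [mem_filter]
  simp only [mem_univ, true_and]

theorem card_le (β : A ↪ Q) (τ : B ↪ Q) (Ξ Ξ' : Q ↪ V) :
    (E β (β.trans Ξ) (τ.trans Ξ)).card ≤ (E β (β.trans Ξ') (τ.trans Ξ')).card := by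
  obtain ⟨π, hπ⟩ := exists_perm Ξ Ξ'
  refine Finset.card_le_card_of_injOn (fun Ξ₁ => Ξ₁.trans π.toEmbedding) ?_ ?_
  · intro Ξ₁ h
    have h' := mem_E.1 (Finset.mem_coe.1 h)
    refine Finset.mem_coe.2 (mem_E.2 ⟨fun a => ?_, fun b => ?_⟩)
    · have h1 : Ξ₁ (β a) = Ξ (β a) := h'.1 a
      change π (Ξ₁ (β a)) = Ξ' (β a)
      rw [h1, hπ]
    · obtain ⟨c, hc⟩ := h'.2 b
      have h1 : Ξ₁ c = Ξ (τ b) := hc
      refine ⟨c, ?_⟩
      change π (Ξ₁ c) = Ξ' (τ b)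
      rw [h1, hπ]
  · intro Ξ₁ _ Ξ₂ _ h
    apply Function.Embedding.ext
    intro q
    have h1 := congrArg (fun z : Q ↪ V => z q) h
    change π (Ξ₁ q) = π (Ξ₂ q) at h1
    exact π.injective h1

theorem card_eq (β : A ↪ Q) (τ : B ↪ Q) (Ξ Ξ' : Q ↪ V) :
    (E β (β.trans Ξ) (τ.trans Ξ)).card = (E β (β.trans Ξ') (τ.trans Ξ')).card :=
  le_antisymm (card_le β τ Ξ Ξ') (card_le β τ Ξ' Ξ)

theorem self_mem (β : A ↪ Q) (τ : B ↪ Q) (Ξ : Q ↪ V) : Ξ ∈ E β (β.trans Ξ) (τ.trans Ξ) :=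
  mem_E.2 ⟨fun _ => rfl, fun b => ⟨τ b, rfl⟩⟩

theorem card_lower (β : A ↪ Q) (τ : B ↪ Q) (Ξ : Q ↪ V) (c : Q) (h1 : ∀ a, β a ≠ c)
    (h2 : ∀ b, τ b ≠ c) :
    (Fintype.card V : ℝ) - Fintype.card Q + 1 ≤ (E β (β.trans Ξ) (τ.trans Ξ)).card := by
  have h3 : (univ \ ((univ.erase c).map Ξ)).card ≤ (E β (β.trans Ξ) (τ.trans Ξ)).card := by
    refine Finset.card_le_card_of_injOn
      (fun v => Ξ.trans (Equiv.swap (Ξ c) v).toEmbedding) ?_ ?_
    · intro v hv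
      have hv' := Finset.mem_coe.1 hv
      rw [mem_sdiff, mem_map] at hv'
      have hfix : ∀ q : Q, q ≠ c → Equiv.swap (Ξ c) v (Ξ q) = Ξ q := by
        intro q hq
        refine Equiv.swap_apply_of_ne_of_ne (fun h => hq (Ξ.injective h)) (fun h => ?_)
        exact hv'.2 ⟨q, mem_erase.2 ⟨hq, mem_univ _⟩, h⟩
      refine Finset.mem_coe.2 (mem_E.2 ⟨fun a => ?_, fun b => ⟨τ b, ?_⟩⟩)
      · exact hfix _ (h1 a)
      · exact hfix _ (h2 b)
    · intro v _ v' _ h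
      have h4 := congrArg (fun z : Q ↪ V => z c) h
      change Equiv.swap (Ξ c) v (Ξ c) = Equiv.swap (Ξ c) v' (Ξ c) at h4
      rwa [Equiv.swap_apply_left, Equiv.swap_apply_left] at h4
  have h4 : ((univ.erase c).map Ξ).card + 1 = Fintype.card Q := by
    rw [card_map, card_erase_of_mem (mem_univ _), card_univ]
    have : 0 < Fintype.card Q := Fintype.card_pos_iff.2 ⟨c⟩
    omega
  have h5 : (univ \ ((univ.erase c).map Ξ)).card + ((univ.erase c).map Ξ).card = Fintype.card V := by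
    rw [card_sdiff_add_card_eq_card (subset_univ _), card_univ]
  have h6 : Fintype.card V + 1 ≤ (E β (β.trans Ξ) (τ.trans Ξ)).card + Fintype.card Q := by omega
  have h7 : (Fintype.card V : ℝ) + 1 ≤ ((E β (β.trans Ξ) (τ.trans Ξ)).card : ℝ) + Fintype.card Q := by
    exact_mod_cast h6
  linarith

/-- the sum over the flags inside `range Ξ` -/
theorem inner_sum (β : A ↪ Q) (α : A ↪ V) (w : (B ↪ Q) → ℝ) (g : (B ↪ V) → ℝ) (Ξ : Q ↪ V)
    (hΞ : ∀ a, Ξ (β a) = α a)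
    (hw : ∀ τ, w τ = 1 / ((E β (β.trans Ξ) (τ.trans Ξ)).card : ℝ)) :
    ∑ τ : B ↪ Q, w τ * g (τ.trans Ξ) =
      ∑ θ : B ↪ V, if ∀ b, ∃ c, Ξ c = θ b then 1 / ((E β α θ).card : ℝ) * g θ else 0 := by
  rw [← Finset.sum_filter]
  have hα : β.trans Ξ = α := Function.Embedding.ext hΞ
  refine Finset.sum_bij (fun τ _ => τ.trans Ξ) ?_ ?_ ?_ ?_
  · intro τ _
    rw [mem_filter]
    exact ⟨mem_univ _, fun b => ⟨τ b, rfl⟩⟩
  · intro τ _ τ' _ h
    apply Function.Embedding.ext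
    intro b
    have h1 := congrArg (fun z : B ↪ V => z b) h
    exact Ξ.injective h1
  · intro θ hθ
    rw [mem_filter] at hθ
    choose u hu using hθ.2
    refine ⟨⟨u, fun b b' h => ?_⟩, mem_univ _, ?_⟩
    · apply θ.injective
      rw [← hu b, ← hu b', h]
    · apply Function.Embedding.ext
      exact hu
  · intro τ _
    rw [hw τ, hα]

end

end EXT

open EXT in
theorem t_EXT : S_EXT := by
  intro A Q B V _ _ _ _ _ _ _ _ β hQV
  obtain ⟨Ξ₀⟩ : Nonempty (Q ↪ V) := Function.Embedding.nonempty_of_card_le hQV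
  refine ⟨fun τ => 1 / ((E β (β.trans Ξ₀) (τ.trans Ξ₀)).card : ℝ), fun τ => by positivity, ?_, ?_⟩
  · rintro τ ⟨c, h1, h2⟩
    have h3 := card_lower β τ Ξ₀ c h1 h2
    refine one_div_le_one_div_of_le ?_ h3
    have h4 : (Fintype.card Q : ℝ) ≤ Fintype.card V := by exact_mod_cast hQV
    linarith
  · intro α g
    have e1 : (∑ Ξ ∈ univ.filter (fun Ξ : Q ↪ V => ∀ a, Ξ (β a) = α a),
        ∑ τ : B ↪ Q, 1 / ((E β (β.trans Ξ₀) (τ.trans Ξ₀)).card : ℝ) * g (τ.trans Ξ)) =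
        ∑ Ξ ∈ univ.filter (fun Ξ : Q ↪ V => ∀ a, Ξ (β a) = α a),
          ∑ θ : B ↪ V, if ∀ b, ∃ c, Ξ c = θ b then 1 / ((E β α θ).card : ℝ) * g θ else 0 := by
      refine Finset.sum_congr rfl fun Ξ hΞ => ?_
      rw [mem_filter] at hΞ
      exact inner_sum β α (fun τ => 1 / ((E β (β.trans Ξ₀) (τ.trans Ξ₀)).card : ℝ)) g Ξ hΞ.2
        fun τ => by rw [card_eq β τ Ξ₀ Ξ]
    rw [e1, Finset.sum_comm, Finset.sum_filter]
    refine Finset.sum_congr rfl fun θ _ => ?_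
    have e2 : ∑ Ξ ∈ univ.filter (fun Ξ : Q ↪ V => ∀ a, Ξ (β a) = α a),
        (if ∀ b, ∃ c, Ξ c = θ b then 1 / ((E β α θ).card : ℝ) * g θ else 0) =
        ∑ Ξ ∈ E β α θ, 1 / ((E β α θ).card : ℝ) * g θ := by
      rw [← Finset.sum_filter, Finset.filter_filter]
      rfl
    rw [e2, Finset.sum_const, nsmul_eq_mul]
    split_ifs with h
    · obtain ⟨Ξ, hΞ⟩ := h
      have h1 : 0 < (E β α θ).card := Finset.card_pos.2 ⟨Ξ, mem_E.2 hΞ⟩
      have h2 : ((E β α θ).card : ℝ) ≠ 0 := by exact_mod_cast h1.ne'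
      rw [← mul_assoc, mul_one_div_cancel h2, one_mul]
    · have h1 : (E β α θ).card = 0 := by
        rw [Finset.card_eq_zero, Finset.eq_empty_iff_forall_notMem]
        intro Ξ hΞ
        exact h ⟨Ξ, mem_E.1 hΞ⟩
      rw [h1, Nat.cast_zero, zero_mul]

end Pool.Agent.T3h36
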