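import Pool.Agent.T3h36.Stm

set_option autoImplicit false
open Finset
open Pool.Agent.T2h36 Pool.Agent.T2h36.Uni

namespace Pool.Agent.T3h36

theorem rel_card_filter {ι : Type} (s : Finset ι) (P : ι → Prop) (inst : DecidablePred P) :
    (@Finset.filter ι P inst s).card ≤ s.card := card_le_card (filter_subset _ _)

theorem rel_sum_filter {ι : Type} (s : Finset ι) (P : ι → Prop) (inst : DecidablePred P)
    (h : ∀ i, P i) (F : ι → ℝ) : ∑ i ∈ @Finset.filter ι P inst s, F i = ∑ i ∈ s, F i := by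
  rw [filter_true_of_mem (fun i _ => h i)]

theorem t_REL (hE : S_EXT) (hM : S_EMB) : S_REL := by
  intro d V _ _ hdV ρ hρ
  classical
  have hQV : Fintype.card (Fin d ⊕ Fin d) ≤ Fintype.card V := by
    simp only [Fintype.card_sum, Fintype.card_fin]; omega
  obtain ⟨χ₀⟩ : Nonempty (Fin d ⊕ Fin d ↪ V) := Function.Embedding.nonempty_of_card_le hQV
  obtain ⟨w, -, -, hw⟩ := hE (Fin d) (Fin d ⊕ Fin d) (Fin d) V
    (Function.Embedding.inl : Fin d ↪ Fin d ⊕ Fin d) hQV
  refine ⟨fun G => ∑ τ : Fin d ↪ Fin d ⊕ Fin d,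
    w τ * ρ (τ.trans χ₀) ((Function.Embedding.inl : Fin d ↪ Fin d ⊕ Fin d).trans χ₀) (pull τ G),
    fun H η => ?_⟩
  have hall : ∀ θ : Fin d ↪ V, ∃ Ξ : Fin d ⊕ Fin d ↪ V,
      (∀ a, Ξ ((Function.Embedding.inl : Fin d ↪ Fin d ⊕ Fin d) a) = η a) ∧
        ∀ b, ∃ c, Ξ c = θ b := by
    intro θ
    apply hM (Fin d) (Fin d ⊕ Fin d) (Fin d) V _ η θ hQV
    refine le_trans (Nat.add_le_add_left (rel_card_filter _ _ _) _) ?_
    simp only [Fintype.card_sum, Fintype.card_fin, card_univ, le_refl]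
  have key := hw η (fun θ => ρ θ η (pull θ H))
  refine ((rel_sum_filter _ _ _ hall _).symm.trans key.symm).trans ?_
  unfold ext
  rw [← sum_filter]
  refine sum_congr (by ext χ; simp only [mem_filter, mem_univ, true_and]; rfl) ?_
  intro χ hχ
  simp only [mem_filter, mem_univ, true_and] at hχ
  apply sum_congr rfl
  intro τ _
  obtain ⟨π, hπ⟩ := exists_perm χ₀ χ
  have h1 : (τ.trans χ₀).trans π.toEmbedding = τ.trans χ := by
    ext a; exact hπ (τ a)
  have h2 : ((Function.Embedding.inl : Fin d ↪ Fin d ⊕ Fin d).trans χ₀).trans π.toEmbedding = η := by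
    ext a
    show π (χ₀ (Sum.inl a)) = η a
    rw [hπ]; exact hχ a
  have h3 := hρ π (τ.trans χ₀) ((Function.Embedding.inl : Fin d ↪ Fin d ⊕ Fin d).trans χ₀)
    (pull τ (pull χ H))
  rw [h1, h2] at h3
  rw [← h3, pull_pull]

end Pool.Agent.T3h36
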