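import Pool.Agent.T3h36.Stm

/-!
# SQRT: an invariant positive semidefinite kernel has an invariant square root
-/

set_option autoImplicit false
set_option linter.all false

open Finset Matrix
open scoped MatrixOrder

namespace Pool.Agent.T3h36

theorem t_SQRT : S_SQRT := by
  intro I S _ _ _ v
  set V : Matrix S I ℝ := Matrix.of v with hV
  set K : Matrix I I ℝ := Vᴴ * V with hK
  have hKe : ∀ x y, K x y = ∑ s, v s x * v s y := by
    intro x y
    rw [hK, Matrix.mul_apply]
    refine Finset.sum_congr rfl fun s _ => ?_
    rw [Matrix.conjTranspose_apply, star_trivial]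
    rfl
  have hKp : K.PosSemidef := Matrix.posSemidef_conjTranspose_mul_self V
  have hK0 : (0 : Matrix I I ℝ) ≤ K := hKp.nonneg
  set R : Matrix I I ℝ := CFC.sqrt K with hR
  have hRp : R.PosSemidef := (CFC.sqrt_nonneg K).posSemidef
  have hRR : R * R = K := CFC.sqrt_mul_sqrt_self K hK0
  refine ⟨fun x y => R x y, ?_, ?_, ?_⟩
  · intro x y
    have h := hRp.1.apply x y
    rw [star_trivial] at h
    exact h.symm
  · intro x y
    rw [← hKe, ← hRR, Matrix.mul_apply]
  · intro p hp x y
    have h1 : (R.submatrix p p).PosSemidef := hRp.submatrix p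
    have h2 : R.submatrix p p * R.submatrix p p = K := by
      rw [Matrix.submatrix_mul_equiv, hRR]
      ext a b
      rw [Matrix.submatrix_apply, hKe, hKe]
      exact hp a b
    have h3 : R = R.submatrix p p := CFC.sqrt_unique h2 h1.nonneg
    have h4 := congrFun (congrFun h3 x) y
    exact h4.symm

end Pool.Agent.T3h36
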