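import Pool.Agent.T3h36.Stm

/-! tasks SYM and SYF of the project LS: symmetrisation of combinations of flags -/

set_option autoImplicit false
open Finset
open Pool.Agent.T2h36 Pool.Agent.T2h36.Uni

namespace Pool.Agent.T3h36

namespace SYM

theorem freePerm_inl (k : ℕ) {m : ℕ} (σ : Equiv.Perm (Fin m)) (x : Fin k) :
    freePerm k σ (Sum.inl x) = Sum.inl x := rfl

theorem freePerm_inr (k : ℕ) {m : ℕ} (σ : Equiv.Perm (Fin m)) (x : Fin m) :
    freePerm k σ (Sum.inr x) = Sum.inr (σ x) := rfl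

theorem freePerm_trans (k : ℕ) {m : ℕ} (σ τ : Equiv.Perm (Fin m)) :
    (freePerm k σ).trans (freePerm k τ) = freePerm k (τ * σ) := by
  ext x
  rcases x with x | x
  · rfl
  · rfl

theorem freePerm_one (k m : ℕ) : freePerm k (1 : Equiv.Perm (Fin m)) = Function.Embedding.refl _ := by
  ext x
  rcases x with x | x
  · rfl
  · rfl

/-- composition with a permutation of the further vertices -/
def pre (k : ℕ) {m : ℕ} {V : Type} (σ : Equiv.Perm (Fin m)) :
    (Fin k ⊕ Fin m ↪ V) ≃ (Fin k ⊕ Fin m ↪ V) where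
  toFun χ := (freePerm k σ).trans χ
  invFun χ := (freePerm k σ⁻¹).trans χ
  left_inv χ := by
    show (freePerm k σ⁻¹).trans ((freePerm k σ).trans χ) = χ
    rw [← Function.Embedding.trans_assoc, freePerm_trans, mul_inv_cancel, freePerm_one]
    rfl
  right_inv χ := by
    show (freePerm k σ).trans ((freePerm k σ⁻¹).trans χ) = χ
    rw [← Function.Embedding.trans_assoc, freePerm_trans, inv_mul_cancel, freePerm_one]
    rfl

end SYM

/-- **SYM** -/
theorem t_SYM : S_SYM := by
  intro k m f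
  have hm : (m.factorial : ℝ) ≠ 0 := Nat.cast_ne_zero.2 m.factorial_ne_zero
  refine ⟨fun F => (m.factorial : ℝ)⁻¹ * ∑ σ : Equiv.Perm (Fin m), f (pull (freePerm k σ) F), ?_, ?_⟩
  · intro τ F
    show (m.factorial : ℝ)⁻¹ * ∑ σ : Equiv.Perm (Fin m), f (pull (freePerm k σ) (pull (freePerm k τ) F)) =
      (m.factorial : ℝ)⁻¹ * ∑ σ : Equiv.Perm (Fin m), f (pull (freePerm k σ) F)
    congr 1
    refine Fintype.sum_equiv (Equiv.mulLeft τ) _ _ fun σ => ?_
    rw [pull_pull, SYM.freePerm_trans]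
    rfl
  · intro V _ _ H η
    unfold ext
    have h1 : ∀ σ : Equiv.Perm (Fin m),
        (∑ χ : Fin k ⊕ Fin m ↪ V, if ∀ i, χ (Sum.inl i) = η i then f (pull (freePerm k σ) (pull χ H)) else 0) =
        ∑ χ : Fin k ⊕ Fin m ↪ V, if ∀ i, χ (Sum.inl i) = η i then f (pull χ H) else 0 := by
      intro σ
      refine Fintype.sum_equiv (SYM.pre k σ) _ _ fun χ => ?_
      rw [pull_pull]
      rfl
    have h2 : ∀ χ : Fin k ⊕ Fin m ↪ V,
        (if ∀ i, χ (Sum.inl i) = η i then
          (m.factorial : ℝ)⁻¹ * ∑ σ : Equiv.Perm (Fin m), f (pull (freePerm k σ) (pull χ H)) else 0) =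
        (m.factorial : ℝ)⁻¹ * ∑ σ : Equiv.Perm (Fin m),
          if ∀ i, χ (Sum.inl i) = η i then f (pull (freePerm k σ) (pull χ H)) else 0 := by
      intro χ
      split_ifs with h
      · rfl
      · simp
    rw [Finset.sum_congr rfl fun χ _ => h2 χ, ← Finset.mul_sum, Finset.sum_comm,
      Finset.sum_congr rfl fun σ _ => h1 σ, Finset.sum_const, Finset.card_univ, Fintype.card_perm,
      Fintype.card_fin, nsmul_eq_mul, ← mul_assoc, inv_mul_cancel₀ hm, one_mul]

/-- **SYF** -/
theorem t_SYF : S_SYF := by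
  intro k m f hf F h3
  unfold Uni.symm
  have h : ∀ σ : Equiv.Perm (Fin m), f (sub F (Sum.map id σ)) = f F := by
    intro σ
    have h1 : (Sum.map id σ : Fin k ⊕ Fin m → Fin k ⊕ Fin m) = (freePerm k σ) := by
      funext x
      rcases x with x | x
      · rfl
      · rfl
    rw [h1, sub_emb h3, hf]
  rw [Finset.sum_congr rfl fun σ _ => h σ, Finset.sum_const, Finset.card_univ, Fintype.card_perm,
    Fintype.card_fin, nsmul_eq_mul]

end Pool.Agent.T3h36
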