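import Pool.Agent.T3h36.StmK

set_option autoImplicit false
open Finset
open Pool.Agent.T2h36 Pool.Agent.T2h36.Uni

namespace Pool.Agent.T3h36

theorem t_UNQK (hI : S_ISO) : S_UNQK := by
  intro κ hκ N V _ _ hN Φ hΦ
  suffices h : ∀ c : ℕ, ∀ G : Finset (Finset (Fin N)), G.card = c → Is3 G → CliqueFree3 κ G → avg Φ G = 0 from
    fun G h3 hK => h _ G rfl h3 hK
  intro c
  induction c using Nat.strong_induction_on with
  | _ c ih =>
  intro G hc h3 hK
  obtain ⟨ι⟩ : Nonempty (Fin N ↪ V) := Function.Embedding.nonempty_of_card_le (by simpa using hN)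
  have mem_push : ∀ e : Finset V, e ∈ push ι G ↔ ∃ e' ∈ G, e'.map ι = e := by
    intro e
    simp [push, Finset.mem_map, Finset.mapEmbedding_apply]
  have hcard : (push ι G).card = G.card := by
    unfold push
    rw [Finset.card_map]
  have hH3 : Is3 (push ι G) := by
    intro e he
    obtain ⟨e', h1, rfl⟩ := (mem_push e).1 he
    rw [Finset.card_map]
    exact h3 _ h1
  have hHK : CliqueFree3 κ (push ι G) := by
    intro S hS
    by_contra hcon
    push Not at hcon
    have hrange : ∀ x ∈ S, ∃ a, ι a = x := by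
      intro x hx
      obtain ⟨T, hT1, hT2, hT3⟩ := Finset.exists_subsuperset_card_eq
        (Finset.singleton_subset_iff.2 hx) (by rw [Finset.card_singleton]; omega)
        (by omega : 3 ≤ S.card)
      have hT := hcon T hT2 hT3
      obtain ⟨e', _, h2⟩ := (mem_push _).1 hT
      have : x ∈ e'.map ι := by
        rw [h2]
        exact hT1 (Finset.mem_singleton_self x)
      obtain ⟨a, _, ha⟩ := Finset.mem_map.1 this
      exact ⟨a, ha⟩
    have hS' : (univ.filter fun a => ι a ∈ S).map ι = S := by
      ext x
      simp only [Finset.mem_map, mem_filter, mem_univ, true_and]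
      constructor
      · rintro ⟨a, ha, rfl⟩
        exact ha
      · intro hx
        obtain ⟨a, rfl⟩ := hrange x hx
        exact ⟨a, hx, rfl⟩
    have hc4 : (univ.filter fun a => ι a ∈ S).card = κ := by rw [← Finset.card_map ι, hS', hS]
    obtain ⟨T, hT1, hT2, hT3⟩ := hK _ hc4
    have := hcon (T.map ι) (by rw [← hS']; exact Finset.map_subset_map.2 hT1)
      (by rw [Finset.card_map, hT2])
    obtain ⟨e', h1, h2⟩ := (mem_push _).1 this
    rw [Finset.map_inj] at h2
    exact hT3 (h2 ▸ h1)
  have h0 := hΦ (push ι G) hH3 hHK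
  rw [← avg_avg (B := Fin N) Φ (push ι G) le_rfl (by simpa using hN)] at h0
  have h1 : (∑ ψ : Fin N ↪ V, avg Φ (pull ψ (push ι G))) = 0 := by
    change (∑ θ : Fin N ↪ V, avg Φ (pull θ (push ι G))) / (Fintype.card (Fin N ↪ V) : ℝ) = 0 at h0
    have hne : (Fintype.card (Fin N ↪ V) : ℝ) ≠ 0 := by
      have : 0 < Fintype.card (Fin N ↪ V) := Fintype.card_pos_iff.mpr ⟨ι⟩
      positivity
    rcases div_eq_zero_iff.1 h0 with h | h
    · exact h
    · exact absurd h hne
  -- invariance under permutations
  have hinv : ∀ σ : Equiv.Perm (Fin N), avg Φ (pull σ.toEmbedding G) = avg Φ G := by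
    intro σ
    unfold avg
    congr 1
    let E : (Fin N ↪ Fin N) ≃ (Fin N ↪ Fin N) :=
      { toFun := fun θ => θ.trans σ.toEmbedding
        invFun := fun θ => θ.trans σ.symm.toEmbedding
        left_inv := fun θ => by ext a; simp
        right_inv := fun θ => by ext a; simp }
    refine Fintype.sum_equiv E _ _ fun θ => ?_
    rw [pull_pull]
    rfl
  have hval : ∀ ψ : Fin N ↪ V, avg Φ (pull ψ (push ι G)) =
      if (pull ψ (push ι G)).card = G.card then avg Φ G else 0 := by
    intro ψ
    split_ifs with h
    · obtain ⟨σ, hσ⟩ := hI N V ι ψ G h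
      rw [hσ, hinv]
    · have hle : (pull ψ (push ι G)).card ≤ (push ι G).card := by
        refine Finset.card_le_card_of_injOn (fun e => e.map ψ) ?_ ?_
        · intro e he
          exact (mem_pull _ _ _).1 he
        · intro e _ e' _ h
          exact Finset.map_injective ψ h
      have hlt : (pull ψ (push ι G)).card < c := by
        rw [hcard] at hle
        omega
      refine ih _ hlt _ rfl (is3_pull _ hH3) ?_
      rw [← sub_emb hH3]
      exact CKU.sub_free hκ hH3 hHK _
  rw [Finset.sum_congr rfl fun ψ _ => hval ψ, ← Finset.sum_filter, Finset.sum_const, nsmul_eq_mul] at h1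
  rcases mul_eq_zero.1 h1 with h | h
  · exfalso
    have hmem : ι ∈ univ.filter fun ψ : Fin N ↪ V => (pull ψ (push ι G)).card = G.card := by
      rw [mem_filter]
      refine ⟨mem_univ _, ?_⟩
      congr 1
      ext e
      rw [mem_pull, mem_push]
      constructor
      · rintro ⟨e', h1, h2⟩
        rw [Finset.map_inj] at h2
        exact h2 ▸ h1
      · intro he
        exact ⟨e, he, rfl⟩
    have : 0 < (univ.filter fun ψ : Fin N ↪ V => (pull ψ (push ι G)).card = G.card).card :=
      Finset.card_pos.2 ⟨ι, hmem⟩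
    have h' : (univ.filter fun ψ : Fin N ↪ V => (pull ψ (push ι G)).card = G.card).card = 0 := by
      exact_mod_cast h
    omega
  · exact h

end Pool.Agent.T3h36
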