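import Pool.Agent.T3h36.Stm
import Pool.Agent.T2h36.CK.Uni
import Pool.Agent.T2h36.CK.Dens

/-!
# Statements: sum-of-squares proofs of bounded order for `T(n, κ, 3)`, `κ ≥ 5`

The statements of `Stm.lean` with `K_4^3`-free replaced by `K_κ^3`-free (`CliqueFree3 κ`; note that
`K43Free H` and `CliqueFree3 4 H` are the same by `rfl`).
-/

set_option autoImplicit false
open Finset
open Pool.Agent.T2h36 Pool.Agent.T2h36.Uni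

namespace Pool.Agent.T3h36

/-- (UNQK) as `S_UNQ`; `push ι G` is `K_κ^3`-free if `G` is (a `κ`-set all whose triples are in
`push ι G` lies in the range of `ι`, since `κ ≥ 3`). -/
def S_UNQK : Prop := ∀ (κ : ℕ), 3 ≤ κ → ∀ (N : ℕ) (V : Type) [Fintype V] [DecidableEq V],
  N ≤ Fintype.card V →
  ∀ Φ : Finset (Finset (Fin N)) → ℝ,
    (∀ H : Finset (Finset V), Is3 H → CliqueFree3 κ H → avg Φ H = 0) →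
    ∀ G : Finset (Finset (Fin N)), Is3 G → CliqueFree3 κ G → avg Φ G = 0

/-- (SQBK) as `S_SQB`, from `Pool/Agent/T2h36/CK/Uni.lean` instead of `Uni4.lean` -/
def S_SQBK : Prop := ∀ (κ : ℕ), 3 ≤ κ → ∀ (N r : ℕ), 3 ≤ N →
  ∀ (f : ∀ k m : ℕ, Fin r → Finset (Finset (Fin k ⊕ Fin m)) → ℝ) (s : ℝ), 0 < s →
  (∀ G : Finset (Finset (Fin N)), Is3 G → CliqueFree3 κ G → sos N r f G ≤ s) →
  ∀ k m : ℕ, (k, m) ∈ pairs N → ∀ F : Finset (Finset (Fin k ⊕ Fin m)), Is3 F → CliqueFree3 κ F →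
    ∑ j : Fin r, symm (f k m j) F ^ 2 ≤ s * (8 * 4 ^ m * (((k : ℝ) + m) ^ (k + m)) ^ 2)

/-- (UGK) the theorem `result` of `Pool/Agent/Results/MP_465f8a_co/UniformGapTriples.lean` -/
def S_UGK : Prop := ∀ (κ : ℕ), 5 ≤ κ → ∀ (N : ℕ), 3 ≤ N → ∀ (r : ℕ)
  (f : ∀ k m : ℕ, Fin r → Finset (Finset (Fin k ⊕ Fin m)) → ℝ) (lam : ℝ),
  (∀ G : Finset (Finset (Fin N)), Is3 G → CliqueFree3 κ G → edgeDens G + sos N r f G ≤ lam) →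
  1 - 4 / ((κ : ℝ) - 1) ^ 2 + 1 / (((κ : ℝ) - 1) ^ 2 * (2 * (N : ℝ)) ^ (6 * N + 20)) ≤ lam

/-- (BNDK) as `S_BND` -/
def S_BNDK : Prop := ∀ (κ : ℕ), 5 ≤ κ → ∀ (k m : ℕ), 1 ≤ m → 3 ≤ k + 2 * m → ∀ (r : ℕ)
  (f : Fin r → Finset (Finset (Fin k ⊕ Fin m)) → ℝ), (∀ j, IsSym (f j)) →
  ∀ (w : (Fin k ⊕ Fin m ↪ Fin k ⊕ (Fin m ⊕ Fin m)) → ℝ) (ε lam : ℝ), 0 ≤ ε →
  (∀ a, 0 ≤ w a) → (∀ a, w a ≤ ε) → lam ≤ 1 →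
  ε * (2 * ((k + 2 * m : ℕ) : ℝ)) ^ (3 * (k + 2 * m) + 2) ≤ 1 →
  (∀ G : Finset (Finset (Fin (k + 2 * m))), Is3 G → CliqueFree3 κ G →
    edgeDens G + ∑ j : Fin r, avg (fun G' : Finset (Finset (Fin k ⊕ (Fin m ⊕ Fin m))) =>
      square (f j) G' + ∑ a, w a * (f j (pull (left k m) G') * f j (pull a G'))) G = lam) →
  1 - 4 / ((κ : ℝ) - 1) ^ 2 +
      1 / (((κ : ℝ) - 1) ^ 2 * (2 * ((k + 2 * m : ℕ) : ℝ)) ^ (6 * (k + 2 * m) + 20)) ≤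
    lam + ε * (2 * ((k + 2 * m : ℕ) : ℝ)) ^ (3 * (k + 2 * m) + 2)

/-- (LBK) as `S_LB`; with `N = k + 2m`: `ε (2N)^(3N+2) ≤ 1/(2 (κ-1)² (2N)^(6N+20))` since
`n - N + 1 ≥ 2 (κ-1)² (2N)^(9N+22)`. -/
def S_LBK : Prop := ∀ (κ : ℕ), 5 ≤ κ → ∀ (k m : ℕ), 1 ≤ m → 3 ≤ k + 2 * m →
  ∀ (V : Type) [Fintype V] [DecidableEq V] (r : ℕ) (f : Fin r → Finset (Finset (Fin k ⊕ Fin m)) → ℝ) (M : ℝ),
  (κ - 1) ^ 2 * (2 * (k + 2 * m)) ^ (9 * (k + 2 * m) + 23) ≤ Fintype.card V →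
  (∀ H : Finset (Finset V), Is3 H → CliqueFree3 κ H → (H.card : ℝ) + ∑ j : Fin r, finSq (f j) H = M) →
  (1 - 4 / ((κ : ℝ) - 1) ^ 2 +
    1 / (2 * (((κ : ℝ) - 1) ^ 2 * (2 * ((k + 2 * m : ℕ) : ℝ)) ^ (6 * (k + 2 * m) + 20)))) *
    (((Fintype.card V).choose 3 : ℕ) : ℝ) ≤ M

/-- (MAINK) as `S_MAIN` -/
def S_MAINK : Prop := ∀ (κ : ℕ), 5 ≤ κ → ∀ (d : ℕ), 1 ≤ d → ∀ (V : Type) [Fintype V] [DecidableEq V] (r : ℕ)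
  (q : Fin r → (Fin d ↪ V) → Finset (Finset (Fin d)) → ℝ) (M : ℝ),
  (κ - 1) ^ 2 * (6 * d) ^ (27 * d + 23) ≤ Fintype.card V →
  (∀ H : Finset (Finset V), Is3 H → CliqueFree3 κ H →
    (H.card : ℝ) + ∑ i : Fin r, (∑ θ : Fin d ↪ V, q i θ (pull θ H)) ^ 2 = M) →
  (1 - 4 / ((κ : ℝ) - 1) ^ 2 + 1 / (2 * (((κ : ℝ) - 1) ^ 2 * (6 * (d : ℝ)) ^ (18 * d + 20)))) *
    (((Fintype.card V).choose 3 : ℕ) : ℝ) ≤ M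

end Pool.Agent.T3h36
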