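import Pool.Agent.T3h36.Stm

/-!
# (ISO) a sample without lost edges is isomorphic to the 3-graph
-/

set_option autoImplicit false
open Finset
open Pool.Agent.T2h36 Pool.Agent.T2h36.Uni

namespace Pool.Agent.T3h36

theorem mem_push {A V : Type} (ι : A ↪ V) (G : Finset (Finset A)) (S : Finset V) :
    S ∈ push ι G ↔ ∃ e ∈ G, e.map ι = S := by
  simp [push]

theorem t_ISO : S_ISO := by
  intro N V _ _ ι ψ G hcard
  -- every edge of `G` is inside the range of `ψ`
  have hex : ∀ e ∈ G, ∃ e' : Finset (Fin N), e'.map ψ = e.map ι := by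
    classical
    have hP : ∀ e' ∈ pull ψ (push ι G), ∃ e ∈ G, e.map ι = e'.map ψ := fun e' he' =>
      (mem_push ι G _).1 ((mem_pull ψ _ e').1 he')
    choose! g hgG hg using hP
    have hinj : Set.InjOn g (pull ψ (push ι G) : Set (Finset (Fin N))) := by
      intro a ha b hb hab
      have h1 := hg a ha
      have h2 := hg b hb
      rw [hab, h2] at h1
      exact (Finset.map_injective ψ h1).symm
    have hmaps : (pull ψ (push ι G)).image g ⊆ G := by
      intro e he
      obtain ⟨e', he', rfl⟩ := Finset.mem_image.1 he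
      exact hgG e' he'
    have heq : (pull ψ (push ι G)).image g = G :=
      Finset.eq_of_subset_of_card_le hmaps (by rw [Finset.card_image_of_injOn hinj, hcard])
    intro e he
    rw [← heq] at he
    obtain ⟨e', he', rfl⟩ := Finset.mem_image.1 he
    exact ⟨e', (hg e' he').symm⟩
  have hpt : ∀ a : {a : Fin N // ∃ e ∈ G, a ∈ e}, ∃ b : Fin N, ψ b = ι a := by
    rintro ⟨a, e, he, hae⟩
    obtain ⟨e', he'⟩ := hex e he
    have h1 : ι a ∈ e'.map ψ := by rw [he']; exact Finset.mem_map_of_mem ι hae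
    obtain ⟨b, _, hb⟩ := Finset.mem_map.1 h1
    exact ⟨b, hb⟩
  choose b hb using hpt
  have hbinj : Function.Injective b := by
    intro x y h
    have h1 := hb x
    rw [h, hb y] at h1
    exact (Subtype.ext (ι.injective h1)).symm
  obtain ⟨τ, hτ⟩ := exists_perm (V := Fin N)
    (Function.Embedding.subtype fun a : Fin N => ∃ e ∈ G, a ∈ e) ⟨b, hbinj⟩
  have hτ' : ∀ e ∈ G, (e.map τ.toEmbedding).map ψ = e.map ι := by
    intro e he
    ext v
    simp only [Finset.mem_map, Equiv.coe_toEmbedding]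
    constructor
    · rintro ⟨c, ⟨a, ha, rfl⟩, rfl⟩
      refine ⟨a, ha, ?_⟩
      have h1 := hτ ⟨a, e, he, ha⟩
      have h2 : τ a = b ⟨a, e, he, ha⟩ := h1
      rw [h2, hb]
    · rintro ⟨a, ha, rfl⟩
      refine ⟨τ a, ⟨a, ha, rfl⟩, ?_⟩
      have h2 : τ a = b ⟨a, e, he, ha⟩ := hτ ⟨a, e, he, ha⟩
      rw [h2, hb]
  refine ⟨τ.symm, ?_⟩
  ext e'
  rw [mem_pull, mem_pull, mem_push]
  constructor
  · rintro ⟨e, he, h⟩
    rw [← hτ' e he] at h
    have h1 : e.map τ.toEmbedding = e' := Finset.map_injective ψ h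
    rw [← h1, Finset.map_map]
    have h2 : τ.toEmbedding.trans τ.symm.toEmbedding = Function.Embedding.refl _ := by
      ext x; simp
    rw [h2, Finset.map_refl]
    exact he
  · intro h
    refine ⟨_, h, ?_⟩
    have h2 : τ.symm.toEmbedding.trans τ.toEmbedding = Function.Embedding.refl _ := by
      ext x; simp
    have h3 : (e'.map τ.symm.toEmbedding).map τ.toEmbedding = e' := by
      rw [Finset.map_map, h2, Finset.map_refl]
    rw [← hτ' _ h, h3]

end Pool.Agent.T3h36
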